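import Mathlib

set_option autoImplicit false

namespace Pool.Agent.Lib.MP_146384_al

open Module Function Filter

variable {k : Type} [Field k]

/-- No nonzero polynomial vanishes on the points `x a`, `a ∈ Z`. -/
def ZD {α τ : Type} (x : α → τ → k) (Z : Set α) : Prop :=
  ∀ P : MvPolynomial τ k, (∀ a ∈ Z, MvPolynomial.eval (x a) P = 0) → P = 0

theorem ZD.cover {α τ : Type} {ι : Type*} {x : α → τ → k} {Z : Set α} (hZ : ZD x Z) {s : Set ι}
    (hs : s.Finite) (Zs : ι → Set α) (hc : ∀ a ∈ Z, ∃ t ∈ s, a ∈ Zs t) :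
    ∃ t ∈ s, ZD x (Zs t) := by
  classical
  by_contra hcon
  have h1 : ∀ t ∈ s, ∃ P : MvPolynomial τ k,
      (∀ a ∈ Zs t, MvPolynomial.eval (x a) P = 0) ∧ P ≠ 0 := by
    intro t ht
    by_contra h
    push Not at h
    exact hcon ⟨t, ht, h⟩
  choose! P hP using h1
  have h2 := hZ (∏ t ∈ hs.toFinset, P t) fun a ha => by
    obtain ⟨t, ht, hat⟩ := hc a ha
    rw [map_prod]
    exact Finset.prod_eq_zero (hs.mem_toFinset.2 ht) ((hP t ht).1 a hat)
  obtain ⟨t, ht, h0⟩ := Finset.prod_eq_zero_iff.1 h2
  exact (hP t (hs.mem_toFinset.1 ht)).2 h0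

/-- A set containing almost all points of each line through one of its points is dense. -/
theorem ZD.of_line [Infinite k] {H τ : Type} [AddCommGroup H] [Module k H] (x : H →ₗ[k] τ → k)
    (hx : Surjective x) {Z : Set H} (f : H)
    (hZ : ∀ g : H, ∀ᶠ t in (cofinite : Filter k), f + t • g ∈ Z) : ZD x Z := by
  intro P hP
  refine MvPolynomial.funext fun y => ?_
  obtain ⟨h, rfl⟩ := hx y
  let Q : Polynomial k := MvPolynomial.aeval
    (fun j => Polynomial.C (x f j) + Polynomial.X * Polynomial.C (x (h - f) j)) P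
  have hQ : ∀ t, Q.eval t = MvPolynomial.eval (x (f + t • (h - f))) P := by
    intro t
    have : (Polynomial.evalRingHom t).comp (MvPolynomial.aeval
        (fun j => Polynomial.C (x f j) + Polynomial.X * Polynomial.C (x (h - f) j)) :
          MvPolynomial τ k →ₐ[k] Polynomial k).toRingHom =
        MvPolynomial.eval (x (f + t • (h - f))) := by
      ext j
      · simp
      · simp
    exact RingHom.congr_fun this P
  have h0 : Q = 0 := by
    refine Polynomial.eq_zero_of_infinite_isRoot Q ?_
    have hinf : {t : k | f + t • (h - f) ∈ Z}.Infinite :=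
      Set.infinite_of_finite_compl (eventually_cofinite.1 (hZ (h - f)))
    exact hinf.mono fun t ht => by
      change Q.eval t = 0
      rw [hQ]; exact hP _ ht
  have := hQ 1
  rw [h0] at this
  simpa using this.symm

theorem exists_coords {J : Type} [DecidableEq J] {S : Type} [AddCommGroup S] [Module k S]
    [FiniteDimensional k S] (ℓ : J → S →ₗ[k] k) (h : ∀ v, (∀ j, ℓ j v = 0) → v = 0) :
    ∃ A : Finset J, A.card = finrank k S ∧ ∀ v, (∀ j ∈ A, ℓ j v = 0) → v = 0 := by
  obtain ⟨κ, a, ha, hsp, hli⟩ := exists_linearIndependent' k ℓ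
  have : Finite κ := hli.finite_of_isNoetherian
  let _ : Fintype κ := Fintype.ofFinite κ
  have htop : Submodule.span k (Set.range ℓ) = ⊤ := by
    rw [← Subspace.dualCoannihilator_dualAnnihilator_eq (W := Submodule.span k (Set.range ℓ))]
    have : (Submodule.span k (Set.range ℓ)).dualCoannihilator = ⊥ := by
      rw [eq_bot_iff]
      intro v hv
      rw [Submodule.mem_dualCoannihilator] at hv
      exact h v fun j => hv _ (Submodule.subset_span ⟨j, rfl⟩)
    rw [this, Submodule.dualAnnihilator_bot]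
  refine ⟨Finset.univ.map ⟨a, ha⟩, ?_, fun v hv => h v fun j => ?_⟩
  · rw [Finset.card_map, Finset.card_univ, ← finrank_span_eq_card hli, hsp, htop, finrank_top]
    exact Subspace.dual_finrank_eq
  · have h1 : ℓ j ∈ Submodule.span k (Set.range (ℓ ∘ a)) := by
      rw [hsp]; exact Submodule.subset_span ⟨j, rfl⟩
    have h2 : Submodule.span k (Set.range (ℓ ∘ a)) ≤ LinearMap.ker (Module.Dual.eval k S v) := by
      refine Submodule.span_le.2 ?_
      rintro _ ⟨i, rfl⟩
      exact hv (a i) (Finset.mem_map.2 ⟨i, Finset.mem_univ _, rfl⟩)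
    exact h2 h1

theorem exists_grid {J n E : Type} [Fintype n] [DecidableEq n] [AddCommGroup E] [Module k E]
    [FiniteDimensional k E] (ℓ : J → E →ₗ[k] k) (A : Finset J) (hA : A.card = finrank k E)
    (h : ∀ v, (∀ j ∈ A, ℓ j v = 0) → v = 0) (D : E →ₗ[k] Matrix n n k) (u₀ : E)
    (h₀ : (D u₀).det ≠ 0) (S₀ : Finset k) (hS : Fintype.card n < S₀.card) :
    ∃ u : E, (D u).det ≠ 0 ∧ ∀ j ∈ A, ℓ j u ∈ S₀ := by
  classical
  let L : E →ₗ[k] (A → k) := LinearMap.pi fun j => ℓ j.1
  have hinj : Injective L := by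
    rw [← LinearMap.ker_eq_bot, LinearMap.ker_eq_bot']
    exact fun v hv => h v fun j hj => congrFun hv ⟨j, hj⟩
  have hsurj : Surjective L :=
    (LinearMap.injective_iff_surjective_of_finrank_eq_finrank (by simp [hA])).1 hinj
  have key : ∀ B : Finset J, B ⊆ A → ∃ u : E, (D u).det ≠ 0 ∧ ∀ j ∈ B, ℓ j u ∈ S₀ := by
    intro B
    induction B using Finset.induction_on with
    | empty => exact fun _ => ⟨u₀, h₀, by simp⟩
    | insert j B hj ih =>
      intro hB
      obtain ⟨u, hu, hu'⟩ := ih ((Finset.subset_insert _ _).trans hB)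
      have hjA : j ∈ A := hB (Finset.mem_insert_self _ _)
      obtain ⟨w, hw⟩ := hsurj (Pi.single ⟨j, hjA⟩ 1)
      have hw1 : ℓ j w = 1 := by simpa [L] using congrFun hw ⟨j, hjA⟩
      have hw0 : ∀ i ∈ B, ℓ i w = 0 := fun i hi => by
        have hiA : i ∈ A := hB (Finset.mem_insert_of_mem hi)
        have hne : (⟨i, hiA⟩ : A) ≠ ⟨j, hjA⟩ := fun h => hj (by
          rw [← Subtype.mk.inj h]; exact hi)
        simpa [L, hne] using congrFun hw ⟨i, hiA⟩
      let Q : Polynomial k := ((Polynomial.X : Polynomial k) • (D w).map Polynomial.C +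
        (D (u - ℓ j u • w)).map Polynomial.C).det
      have hQ : ∀ t, Q.eval t = (D (u - ℓ j u • w + t • w)).det := by
        intro t
        change Polynomial.evalRingHom t Q = _
        rw [RingHom.map_det]
        congr 1
        ext a b
        simp [add_comm]
        ring
      have hdeg : Q.natDegree ≤ Fintype.card n := Polynomial.natDegree_det_X_add_C_le _ _
      have hQ0 : Q ≠ 0 := fun h0 => hu (by
        have := hQ (ℓ j u)
        rw [h0] at this
        simpa using this.symm)
      obtain ⟨t, ht, ht0⟩ : ∃ t ∈ S₀, Q.eval t ≠ 0 := by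
        by_contra hcon
        push Not at hcon
        exact hQ0 (Polynomial.eq_zero_of_natDegree_lt_card_of_eval_eq_zero' Q S₀ hcon (by omega))
      refine ⟨u - ℓ j u • w + t • w, hQ t ▸ ht0, fun i hi => ?_⟩
      rcases Finset.mem_insert.1 hi with rfl | hi
      · simpa [hw1] using ht
      · simpa [hw0 i hi] using hu' i hi
  exact key A subset_rfl

end Pool.Agent.Lib.MP_146384_al
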