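import Pool.Agent.Lib.MP_146384_al.R.Defs

set_option autoImplicit false

namespace Pool.Agent.Lib.MP_146384_al

open Module Function

variable {k Λ : Type} [Field k] [Ring Λ] [Algebra k Λ]

/-- The direct sum of two families. -/
noncomputable def paramSum (t t' : PT k Λ) : PT k Λ where
  n := t.n ⊕ t'.n
  σ := t.σ ⊕ t'.σ
  A a := Matrix.fromBlocks ((t.A a).map (MvPolynomial.rename Sum.inl)) 0 0
    ((t'.A a).map (MvPolynomial.rename Sum.inr))

/-- The constant family of a module. -/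
noncomputable def paramOne (S : FM k Λ) : PT k Λ where
  n := Fin S.dim
  σ := Empty
  A a := (toRep S (finBasis k S.T) a).map MvPolynomial.C

/-- A one-parameter family. -/
noncomputable def paramTame {d : ℕ} (F : Λ →ₐ[k] Matrix (Fin d) (Fin d) (Polynomial k)) :
    PT k Λ where
  n := Fin d
  σ := Unit
  A a := (F a).map (Polynomial.aeval (MvPolynomial.X ()))

theorem param_rep (M : FM k Λ) {n : ℕ} (b : Basis (Fin n) k M.T) (a : Λ) (m : M.T) :
    b.equivFun (a • m) = (toRep M b a).mulVec (b.equivFun m) :=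
  (LinearMap.toMatrix_mulVec_repr b b (Algebra.lsmul k k M.T a) m).symm

theorem param_sub_le (M : FM k Λ) (X : Submodule Λ M.T) :
    hd (M.sub X) (M.sub X) ≤ hd (M.sub X) M :=
  haveI := homFin (M.sub X) M
  LinearMap.finrank_le_finrank_of_injective (f := post (M.sub X) (M := M.sub X) X.subtype)
    fun _ _ h => LinearMap.ext fun x => Subtype.ext (LinearMap.congr_fun h x)

theorem param_sum_fits {M : FM k Λ} {X Y : Submodule Λ M.T} (h : IsCompl X Y) {t t' : PT k Λ}
    (h1 : t.Fits (M.sub X)) (h2 : t'.Fits (M.sub Y)) : (paramSum t t').Fits M := by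
  obtain ⟨c1, x1, e1, h1⟩ := h1
  obtain ⟨c2, x2, e2, h2⟩ := h2
  let φ := Submodule.prodEquivOfIsCompl X Y h
  let e : M.T ≃ₗ[k] (t.n ⊕ t'.n → k) := (φ.symm.restrictScalars k).trans
    ((e1.prodCongr e2).trans (LinearEquiv.sumArrowLequivProdArrow _ _ k k).symm)
  have he : ∀ p : X × Y, e (φ p) = Sum.elim (e1 p.1) (e2 p.2) := fun p => by
    have h3 : e (φ p) = (LinearEquiv.sumArrowLequivProdArrow _ _ k k).symm
        ((e1.prodCongr e2) (φ.symm (φ p))) := rfl
    rw [h3, φ.symm_apply_apply]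
    funext i
    cases i <;> rfl
  refine ⟨?_, Sum.elim x1 x2, e, fun a m => ?_⟩
  · have h3 := hd_compl M M h
    have h4 := param_sub_le M X
    have h5 := param_sub_le M Y
    have h6 : Fintype.card (paramSum t t').σ = Fintype.card t.σ + Fintype.card t'.σ :=
      Fintype.card_sum
    omega
  · obtain ⟨p, rfl⟩ := φ.surjective m
    have h3 : ((paramSum t t').A a).map (MvPolynomial.eval (Sum.elim x1 x2)) =
        Matrix.fromBlocks ((t.A a).map (MvPolynomial.eval x1)) 0 0
          ((t'.A a).map (MvPolynomial.eval x2)) := by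
      ext i j
      rcases i with i | i <;> rcases j with j | j
      · exact MvPolynomial.eval_rename _ _ _
      · exact (MvPolynomial.eval (Sum.elim x1 x2)).map_zero
      · exact (MvPolynomial.eval (Sum.elim x1 x2)).map_zero
      · exact MvPolynomial.eval_rename _ _ _
    refine Eq.trans ?_ (congrArg₂ Matrix.mulVec h3 (he p)).symm
    refine ((congrArg e (map_smul φ a p).symm).trans (he _)).trans ?_
    refine Eq.trans ?_ (Matrix.fromBlocks_mulVec _ _ _ _ _).symm
    rw [Matrix.zero_mulVec, Matrix.zero_mulVec, add_zero, zero_add, Sum.elim_comp_inl,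
      Sum.elim_comp_inr, ← h1, ← h2]
    rfl

theorem param_one_fits {M S : FM k Λ} [Nontrivial M.T] (e : M.T ≃ₗ[Λ] S.T) :
    (paramOne S).Fits M := by
  refine ⟨?_, Empty.elim, (e.restrictScalars k).trans (finBasis k S.T).equivFun, fun a m => ?_⟩
  · refine lt_of_eq_of_lt (Fintype.card_eq_zero (α := Empty)) (Nat.pos_of_ne_zero fun h => ?_)
    obtain ⟨m, hm⟩ := exists_ne (0 : M.T)
    exact hm (LinearMap.congr_fun (hd_eq_zero_iff.1 h LinearMap.id) m)
  · have h3 : ((paramOne S).A a).map (MvPolynomial.eval Empty.elim) =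
        toRep S (finBasis k S.T) a := by
      ext i j
      exact MvPolynomial.eval_C _
    refine Eq.trans ?_ (congrArg₂ Matrix.mulVec h3 rfl).symm
    exact (congrArg (finBasis k S.T).equivFun (map_smul e a m)).trans (param_rep S _ a (e m))

theorem param_two_le {M : FM k Λ} [Nontrivial M.T] (h : ¬ IsBrick M) : 2 ≤ hd M M := by
  by_contra h2
  obtain ⟨v, hv⟩ := finrank_le_one_iff.1 (show finrank k (M.T →ₗ[Λ] M.T) ≤ 1 from
    Nat.le_of_lt_succ (not_le.1 h2))
  refine h ⟨inferInstance, fun φ hφ => bij_of_surj fun m => ?_⟩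
  obtain ⟨c, hc⟩ := hv φ
  obtain ⟨d, hd'⟩ := hv LinearMap.id
  have hc0 : c ≠ 0 := fun e => hφ (by rw [← hc, e, zero_smul])
  refine ⟨(d * c⁻¹) • m, ?_⟩
  have h3 : d • v m = m := LinearMap.congr_fun hd' m
  rw [← hc, LinearMap.smul_apply, LinearMap.map_smul_of_tower, smul_smul,
    show c * (d * c⁻¹) = d by field_simp, h3]

theorem param_tame_fits {M : FM k Λ} {d : ℕ} (h2 : 2 ≤ hd M M) (b : Basis (Fin d) k M.T)
    {F : Λ →ₐ[k] Matrix (Fin d) (Fin d) (Polynomial k)} {c : k} {P : Matrix (Fin d) (Fin d) k}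
    (hP : IsUnit P) (h : ∀ a, P * toRep M b a = (F a).map (Polynomial.eval c) * P) :
    (paramTame F).Fits M := by
  refine ⟨lt_of_eq_of_lt (Fintype.card_unit) h2, fun _ => c, b.equivFun.trans
    (LinearEquiv.ofBijective (Matrix.mulVecLin P)
      ⟨Matrix.mulVec_injective_iff_isUnit.2 hP, Matrix.mulVec_surjective_iff_isUnit.2 hP⟩),
    fun a m => ?_⟩
  have h3 : ((paramTame F).A a).map (MvPolynomial.eval fun _ => c) =
      (F a).map (Polynomial.eval c) := by
    ext i j
    have h4 := Polynomial.aeval_algHom_apply (MvPolynomial.aeval (R := k) fun _ : Unit => c)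
      (MvPolynomial.X ()) (F a i j)
    rw [MvPolynomial.aeval_X, Polynomial.coe_aeval_eq_eval] at h4
    exact h4.symm
  rw [h3]
  change P.mulVec (b.equivFun (a • m)) =
    ((F a).map (Polynomial.eval c)).mulVec (P.mulVec (b.equivFun m))
  rw [param_rep, Matrix.mulVec_mulVec, Matrix.mulVec_mulVec, h]

theorem param_idem {M : FM k Λ} {d : ℕ} (b : Basis (Fin d) k M.T)
    (h : ∀ X Y : Submodule Λ M.T, IsCompl X Y → X = ⊥ ∨ Y = ⊥) (X : Matrix (Fin d) (Fin d) k)
    (hX : ∀ a, X * toRep M b a = toRep M b a * X) (h2 : X * X = X) : X = 0 ∨ X = 1 := by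
  have hi : IsIdempotentElem (ofMat b b X hX : Module.End Λ M.T) := by
    refine LinearMap.ext fun m => ?_
    have h3 := congrArg (Matrix.toLin b b) h2
    rw [Matrix.toLin_mul b b b] at h3
    exact LinearMap.congr_fun h3 m
  rcases h _ _ (LinearMap.IsIdempotentElem.isCompl hi) with e | e
  · refine Or.inl ((Matrix.toLin b b).injective ?_)
    rw [map_zero]
    exact LinearMap.ext fun m => LinearMap.congr_fun (LinearMap.range_eq_bot.1 e) m
  · refine Or.inr ((Matrix.toLin b b).injective ?_)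
    rw [Matrix.toLin_one]
    exact LinearMap.ext fun m => LinearMap.ker_eq_bot.1 e (LinearMap.congr_fun hi m)

theorem param_bound (hT : Tame k Λ) (hBD : BD k Λ) (D : ℕ) :
    ∃ 𝒯 : Set (PT k Λ), 𝒯.Finite ∧
      ∀ M : FM k Λ, Nontrivial M.T → M.dim ≤ D → ∃ t ∈ 𝒯, t.Fits M := by
  induction D with
  | zero =>
    refine ⟨∅, Set.finite_empty, fun M _ h => ?_⟩
    have := dim_pos M
    omega
  | succ D ih =>
    obtain ⟨𝒯, hf, h𝒯⟩ := ih
    obtain ⟨n, F, hF⟩ := hT (D + 1)
    obtain ⟨ι, _, S, hS⟩ := hBD (D + 1)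
    refine ⟨(𝒯 ∪ Set.image2 paramSum 𝒯 𝒯) ∪
      ((Set.range fun i => paramTame (F i)) ∪ Set.range fun s => paramOne (S s)),
      (hf.union (hf.image2 _ hf)).union ((Set.finite_range _).union (Set.finite_range _)),
      fun M _ hM => ?_⟩
    by_cases hD : M.dim ≤ D
    · obtain ⟨t, ht, h⟩ := h𝒯 M inferInstance hD
      exact ⟨t, Or.inl (Or.inl ht), h⟩
    by_cases hc : ∀ X Y : Submodule Λ M.T, IsCompl X Y → X = ⊥ ∨ Y = ⊥
    · by_cases hb : IsBrick M
      · obtain ⟨s, ⟨e⟩⟩ := hS M hb hM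
        exact ⟨_, Or.inr (Or.inr ⟨s, rfl⟩), param_one_fits e⟩
      · let b : Basis (Fin (D + 1)) k M.T :=
          finBasisOfFinrankEq k M.T (show M.dim = D + 1 by omega)
        obtain ⟨i, c, P, hP, h⟩ := hF (toRep M b) (Nat.succ_pos D) (param_idem b hc)
        exact ⟨_, Or.inr (Or.inl ⟨i, rfl⟩), param_tame_fits (param_two_le hb) b hP h⟩
    · push Not at hc
      obtain ⟨X, Y, h, hX, hY⟩ := hc
      have h1 := dim_sub_lt M (X := X) fun e => hY (eq_bot_of_top_isCompl (e ▸ h))
      have h2 := dim_sub_lt M (X := Y) fun e => hX (eq_bot_of_isCompl_top (e ▸ h))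
      obtain ⟨t, ht, h3⟩ := h𝒯 (M.sub X) (Submodule.nontrivial_iff_ne_bot.2 hX) (by omega)
      obtain ⟨t', ht', h4⟩ := h𝒯 (M.sub Y) (Submodule.nontrivial_iff_ne_bot.2 hY) (by omega)
      exact ⟨_, Or.inl (Or.inr (Set.mem_image2_of_mem ht ht')), param_sum_fits h h3 h4⟩

end Pool.Agent.Lib.MP_146384_al
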