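import Mathlib

set_option autoImplicit false

namespace Pool.Agent.Lib.MP_146384_al

open Module Function

section Rat

variable {k I K : Type} [Field k] [Field K] [Algebra k K]

/-- All coordinates of the family `z` land in the subfield `F`. -/
def InF (φ : (I → k) →ₐ[k] K) (F : IntermediateField k K) {V : Type} [AddCommGroup V]
    [Module k V] (z : I → V) : Prop :=
  ∀ ℓ : V →ₗ[k] k, φ (fun i => ℓ (z i)) ∈ F

variable {φ : (I → k) →ₐ[k] K} {F : IntermediateField k K}
  {V W U : Type} [AddCommGroup V] [Module k V] [AddCommGroup W] [Module k W]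
  [AddCommGroup U] [Module k U]

theorem InF.of_mem {z : I → k} (h : φ z ∈ F) : InF φ F z := by
  intro ℓ
  rw [show (fun i => ℓ (z i)) = ℓ 1 • z from funext fun i => by
    rw [Pi.smul_apply, smul_eq_mul, mul_comm, ← smul_eq_mul, ← map_smul, smul_eq_mul, mul_one],
    map_smul]
  exact F.smul_mem h

theorem InF.mem {z : I → k} (h : InF φ F z) : φ z ∈ F := by
  exact h LinearMap.id

theorem InF.const (v : V) : InF φ F (fun _ => v) := by
  intro ℓ
  exact (φ.commutes (ℓ v)).symm ▸ F.algebraMap_mem _

theorem InF.map (L : V →ₗ[k] W) {z : I → V} (h : InF φ F z) : InF φ F (fun i => L (z i)) := by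
  exact fun ℓ => h (ℓ ∘ₗ L)

theorem InF.add {z z' : I → V} (h : InF φ F z) (h' : InF φ F z') :
    InF φ F (fun i => z i + z' i) := by
  intro ℓ
  rw [show (fun i => ℓ (z i + z' i)) = (fun i => ℓ (z i)) + fun i => ℓ (z' i) from
    funext fun i => map_add ℓ _ _, map_add]
  exact add_mem (h ℓ) (h' ℓ)

theorem InF.sub {z z' : I → V} (h : InF φ F z) (h' : InF φ F z') :
    InF φ F (fun i => z i - z' i) := by
  intro ℓ
  rw [show (fun i => ℓ (z i - z' i)) = (fun i => ℓ (z i)) - fun i => ℓ (z' i) from
    funext fun i => map_sub ℓ _ _, map_sub]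
  exact sub_mem (h ℓ) (h' ℓ)

theorem InF.prod {z : I → V} {z' : I → W} (h : InF φ F z) (h' : InF φ F z') :
    InF φ F (fun i => (z i, z' i)) := by
  simpa using (h.map (LinearMap.inl k V W)).add (h'.map (LinearMap.inr k V W))

theorem rat_sum {J : Type} [Fintype J] {z : J → I → V} (h : ∀ j, InF φ F (z j)) :
    InF φ F fun i => ∑ j, z j i := fun ℓ => by
  rw [show (fun i => ℓ (∑ j, z j i)) = ∑ j, fun i => ℓ (z j i) from
    funext fun i => by rw [map_sum, Finset.sum_apply], map_sum]
  exact sum_mem fun j _ => h j ℓ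

theorem InF.pi {J : Type} [Fintype J] {z : I → J → V} (h : ∀ j, InF φ F (fun i => z i j)) :
    InF φ F z := by
  classical
  simpa [Finset.univ_sum_single] using
    rat_sum fun j => (h j).map (LinearMap.single k (fun _ => V) j)

theorem InF.hom [FiniteDimensional k V] {T : I → V →ₗ[k] W}
    (h : ∀ v, InF φ F (fun i => T i v)) : InF φ F T := by
  have e : T = fun i => ∑ j, LinearMap.smulRightₗ ((finBasis k V).coord j)
      (T i (finBasis k V j)) := funext fun i => LinearMap.ext fun v => by
    conv_lhs => rw [← (finBasis k V).sum_repr v, map_sum]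
    simp
  rw [e]
  exact rat_sum fun j => (h _).map _

theorem InF.poly {σ : Type} {x : I → σ → k} (h : ∀ s, φ (fun i => x i s) ∈ F)
    (P : MvPolynomial σ k) : φ (fun i => MvPolynomial.eval (x i) P) ∈ F := by
  induction P using MvPolynomial.induction_on with
  | C a => simpa using (InF.const (φ := φ) (F := F) a).mem
  | add p q hp hq => simpa using ((InF.of_mem hp).add (InF.of_mem hq)).mem
  | mul_X p s hp =>
    have := mul_mem hp (h s)
    rw [← map_mul] at this
    simp only [map_mul (MvPolynomial.eval _), MvPolynomial.eval_X]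
    exact this

/-- The image of a family of matrices. -/
def ratM (φ : (I → k) →ₐ[k] K) {a b : Type} (M : I → Matrix a b k) : Matrix a b K :=
  Matrix.of fun r c => φ fun i => M i r c

theorem ratM_mul {a b c : Type} [Fintype b] (M : I → Matrix a b k) (N : I → Matrix b c k) :
    ratM φ (fun i => M i * N i) = ratM φ M * ratM φ N := by
  ext r s
  simp only [ratM, Matrix.mul_apply, Matrix.of_apply, ← map_mul, ← map_sum]
  exact congrArg φ (funext fun i => by rw [Finset.sum_apply]; rfl)

theorem InF.solve [FiniteDimensional k V] [FiniteDimensional k W] {T : I → V →ₗ[k] W}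
    {z : I → V} (hT : InF φ F T) (hinj : ∀ i, Injective (T i))
    (hw : InF φ F (fun i => T i (z i))) : InF φ F z := by
  let bV := finBasis k V
  let bW := finBasis k W
  choose B hB using fun i => (T i).exists_leftInverse_of_injective
    (LinearMap.ker_eq_bot.2 (hinj i))
  obtain ⟨π, hπ⟩ := (Algebra.linearMap F K).exists_leftInverse_of_injective
    (LinearMap.ker_eq_bot.2 (algebraMap F K).injective)
  let Z : I → Matrix _ Unit k := fun i => Matrix.of fun c _ => bV.repr (z i) c
  have h1 : ratM φ (fun i => LinearMap.toMatrix bW bV (B i)) *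
      ratM φ (fun i => LinearMap.toMatrix bV bW (T i)) = 1 := by
    rw [← ratM_mul]
    ext r c
    simp only [ratM, ← LinearMap.toMatrix_comp, hB, LinearMap.toMatrix_id, Matrix.of_apply,
      Matrix.one_apply]
    split_ifs
    exacts [map_one φ, map_zero φ]
  have h2 : ∀ r c, ratM φ (fun i => LinearMap.toMatrix bV bW (T i)) r c ∈ F := fun r c => by
    simp only [ratM, LinearMap.toMatrix_apply]
    exact hT (bW.coord r ∘ₗ LinearMap.applyₗ (bV c))
  have h3 : ratM φ (fun i => LinearMap.toMatrix bV bW (T i)) * (ratM φ Z).map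
      (fun a => (π a : K)) = ratM φ (fun i => LinearMap.toMatrix bV bW (T i)) * ratM φ Z := by
    ext r u
    have h4 : (ratM φ (fun i => LinearMap.toMatrix bV bW (T i)) * ratM φ Z) r u ∈ F := by
      rw [← ratM_mul]
      have e : ∀ i, (LinearMap.toMatrix bV bW (T i) * Z i) r u = bW.repr (T i (z i)) r :=
        fun i => congrFun (LinearMap.toMatrix_mulVec_repr bV bW (T i) (z i)) r
      simp only [ratM, Matrix.of_apply, e]
      exact hw (bW.coord r)
    refine Eq.trans ?_ (congrArg Subtype.val (LinearMap.congr_fun hπ ⟨_, h4⟩))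
    change _ = (π ((ratM φ (fun i => LinearMap.toMatrix bV bW (T i)) * ratM φ Z) r u) : K)
    rw [Matrix.mul_apply, Matrix.mul_apply, map_sum, IntermediateField.coe_sum]
    exact Finset.sum_congr rfl fun c _ =>
      (congrArg Subtype.val (π.map_smul ⟨_, h2 r c⟩ (ratM φ Z c u))).symm
  have h5 := congrArg (ratM φ (fun i => LinearMap.toMatrix bW bV (B i)) * ·) h3
  simp only [← Matrix.mul_assoc, h1, Matrix.one_mul] at h5
  have h6 : InF φ F fun i c => bV.repr (z i) c := InF.pi fun c => InF.of_mem
    ((show (π (ratM φ Z c ()) : K) = φ fun i => bV.repr (z i) c from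
      congrFun (congrFun h5 c) ()) ▸ (π _).2)
  simpa only [← bV.equivFun_apply, LinearEquiv.coe_coe, LinearEquiv.symm_apply_apply] using
    h6.map bV.equivFun.symm.toLinearMap

end Rat

variable {k : Type} [Field k]

open scoped IntermediateField.algebraAdjoinAdjoin in
/-- If no nonzero polynomial vanishes on all points `x i` and the coordinates of `x` lie in every
subfield containing the `y s`, then there are at least as many `y s` as coordinates. -/
theorem card_le_of_dense {I τ σ : Type} [Fintype τ] [Fintype σ] (x : I → τ → k)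
    (hx : ∀ P : MvPolynomial τ k, (∀ i, MvPolynomial.eval (x i) P = 0) → P = 0) (y : σ → I → k)
    (h : ∀ (K : Type) [Field K] [Algebra k K] (φ : (I → k) →ₐ[k] K) (F : IntermediateField k K),
      (∀ s, φ (y s) ∈ F) → ∀ j, φ (fun i => x i j) ∈ F) :
    Fintype.card τ ≤ Fintype.card σ := by
  let e : MvPolynomial τ k →ₐ[k] (I → k) := MvPolynomial.aeval fun j i => x i j
  have he : ∀ P i, e P i = MvPolynomial.eval (x i) P := fun P i =>
    MvPolynomial.comp_aeval_apply (f := fun j i => x i j) (Pi.evalAlgHom k (fun _ => k) i) P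
  obtain ⟨p, hp, -, hd⟩ := Ideal.exists_le_prime_disjoint (⊥ : Ideal (I → k))
    ((nonZeroDivisors (MvPolynomial τ k)).map e) (Set.disjoint_right.2 (by
      rintro _ ⟨P, hP, rfl⟩ h0
      exact nonZeroDivisors.ne_zero hP (hx P fun i => (he P i).symm.trans (congrFun h0 i))))
  let K := FractionRing ((I → k) ⧸ p)
  let φ : (I → k) →ₐ[k] K := (IsScalarTower.toAlgHom k _ K).comp (Ideal.Quotient.mkₐ k p)
  have hξ : AlgebraicIndependent k fun j => φ fun i => x i j := by
    refine algebraicIndependent_iff.2 fun P hP => by_contra fun h0 => ?_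
    rw [← MvPolynomial.comp_aeval_apply] at hP
    exact Set.disjoint_left.1 hd (Ideal.Quotient.eq_zero_iff_mem.1
      ((FaithfulSMul.algebraMap_eq_zero_iff _ K).1 hP)) ⟨P, mem_nonZeroDivisors_of_ne_zero h0, rfl⟩
  have h1 : Set.range (fun j => φ fun i => x i j) ⊆
      (AlgebraicIndependent.matroid k K).closure (Set.range fun s => φ (y s)) := by
    rintro _ ⟨j, rfl⟩
    rw [AlgebraicIndependent.matroid_closure_eq]
    exact (Algebra.IsAlgebraic.isAlgebraic (R := Algebra.adjoin k (Set.range fun s => φ (y s)))
      (A := IntermediateField.adjoin k (Set.range fun s => φ (y s))) ⟨_, h K φ _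
        (fun s => IntermediateField.subset_adjoin k _ (Set.mem_range_self s)) j⟩).algebraMap
  have h2 := (AlgebraicIndependent.matroid_indep_iff.2
    hξ.to_subtype_range).cardinalMk_le_cRk_of_subset h1
  rw [Matroid.cRk_closure, Cardinal.mk_range_eq _ hξ.injective] at h2
  have h3 := (h2.trans (Matroid.cRk_le_cardinalMk _ _)).trans Cardinal.mk_range_le
  rwa [Cardinal.mk_fintype, Cardinal.mk_fintype, Nat.cast_le] at h3

end Pool.Agent.Lib.MP_146384_al
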