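import Pool.Agent.Lib.MP_146384_al.R.Phi
import Pool.Agent.Lib.MP_146384_al.R.Param
import Pool.Agent.Lib.MP_146384_al.R.Rat
import Pool.Agent.Lib.MP_146384_al.R.Lin

set_option autoImplicit false

namespace Pool.Agent.Lib.MP_146384_al

open Module Function Filter

variable {k Λ : Type} [Field k] [Ring Λ] [Algebra k Λ]

theorem fact_inj {A B N : FM k Λ} (f : A.T →ₗ[Λ] B.T) (hf : Injective f) (w : N.T →ₗ[Λ] B.T)
    (hw : ∀ x, w x ∈ LinearMap.range f) : ∃ u : N.T →ₗ[Λ] A.T, f ∘ₗ u = w :=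
  ⟨(LinearEquiv.ofInjective f hf).symm.toLinearMap ∘ₗ LinearMap.codRestrict _ w hw,
    LinearMap.ext fun z =>
      congrArg Subtype.val ((LinearEquiv.ofInjective f hf).apply_symm_apply ⟨w z, hw z⟩)⟩

theorem hd_cok {N A B : FM k Λ} {f : A.T →ₗ[Λ] B.T} (h : Good N f) :
    hd N (cok f) + hd N A = hd N B := by
  have h1 := (post N (M := B) (N := cok f) (LinearMap.range f).mkQ).finrank_range_add_finrank_ker
  have hs : Surjective (post N (M := B) (N := cok f) (LinearMap.range f).mkQ) := h.2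
  rw [LinearMap.range_eq_top.2 hs, finrank_top] at h1
  have hi : Injective (post N f) := fun a b e =>
    LinearMap.ext fun x => h.1 (LinearMap.congr_fun e x)
  have h2 := LinearMap.finrank_range_of_inj hi
  have h3 : LinearMap.range (post N f) =
      LinearMap.ker (post N (M := B) (N := cok f) (LinearMap.range f).mkQ) := by
    ext π
    constructor
    · rintro ⟨σ, rfl⟩
      exact LinearMap.ext fun x => (Submodule.Quotient.mk_eq_zero _).2 ⟨_, rfl⟩
    · intro hπ
      exact fact_inj f h.1 π fun x =>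
        (Submodule.Quotient.mk_eq_zero _).1 (LinearMap.congr_fun hπ x)
  rw [h3] at h2
  unfold hd
  omega

theorem dim_cok {A B : FM k Λ} {f : A.T →ₗ[Λ] B.T} (h : Injective f) :
    (cok f).dim + A.dim = B.dim := by
  rw [← dim_add B (LinearMap.range f)]
  congr 1
  exact ((LinearEquiv.ofInjective f h).restrictScalars k).finrank_eq

/-- The normal form of a good map whose cokernel lies in the family `t`. -/
def Cell [FiniteDimensional k Λ] (A B : FM k Λ) (t : PT k Λ) (S₀ : Finset k)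
    (q : Finset (Fin (finrank k (B.T →ₗ[k] t.n → k))) ×
      Finset (Fin (finrank k (B.T →ₗ[k] t.n → k))) ×
      (Fin (finrank k (B.T →ₗ[k] t.n → k)) → S₀) × Finset (Fin (finrank k (A.T →ₗ[Λ] B.T))))
    (g : A.T →ₗ[Λ] B.T) : Prop :=
  ∃ (y : t.σ → k) (π : B.T →ₗ[k] t.n → k),
    (∀ a, π (g a) = 0) ∧
    (∀ s b, π (finBasis k Λ s • b) =
      ((t.A (finBasis k Λ s)).map (MvPolynomial.eval y)).mulVec (π b)) ∧
    (∀ π' : B.T →ₗ[k] t.n → k, (∀ s b, π' (finBasis k Λ s • b) =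
      ((t.A (finBasis k Λ s)).map (MvPolynomial.eval y)).mulVec (π' b)) →
      (∀ j ∈ q.1, (finBasis k _).coord j π' = 0) → π' = 0) ∧
    (∀ j ∈ q.2.1, (finBasis k _).coord j π = q.2.2.1 j) ∧
    ∀ f' : A.T →ₗ[Λ] B.T, (∀ a, π (f' a) = 0) →
      (∀ j ∈ q.2.2.2, (finBasis k _).coord j f' = 0) → f' = 0

theorem exists_cell [FiniteDimensional k Λ] (A B : FM k Λ) (t : PT k Λ) (S₀ : Finset k)
    (hS : Fintype.card t.n < S₀.card) (g : A.T →ₗ[Λ] B.T) (hg : Good B g) (ht : t.Fits (cok g)) :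
    ∃ q, (q.2.1 ⊆ q.1 ∧ q.1.card + hd B A = hd B B ∧ Fintype.card t.σ < q.2.1.card ∧
      q.2.2.2.card = hd A A) ∧ Cell A B t S₀ q g := by
  classical
  obtain ⟨hσ, y, e, he⟩ := ht
  let ℓ := (finBasis k (B.T →ₗ[k] t.n → k)).coord
  let jS : (B.T →ₗ[Λ] (cok g).T) →ₗ[k] (B.T →ₗ[k] t.n → k) :=
    LinearMap.llcomp k _ _ _ e.toLinearMap ∘ₗ LinearMap.restrictScalarsₗ k Λ B.T (cok g).T k
  have hjS : ∀ v b, jS v b = e (v b) := fun _ _ => rfl
  obtain ⟨A1, hA1, hA1'⟩ := exists_coords (fun j => ℓ j ∘ₗ jS) fun v hv => by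
    have : jS v = 0 := (finBasis k _).forall_coord_eq_zero_iff.1 hv
    exact LinearMap.ext fun b => e.injective (by rw [← hjS, this]; simp)
  let jE : ((cok g).T →ₗ[Λ] (cok g).T) →ₗ[k] (B.T →ₗ[Λ] (cok g).T) :=
    pre (A := B) (B := cok g) (LinearMap.range g).mkQ (cok g)
  obtain ⟨A2, hA2, hA2'⟩ := exists_coords (fun j : A1 => (ℓ j ∘ₗ jS) ∘ₗ jE) fun u hu => by
    have : jE u = 0 := hA1' _ fun j hj => hu ⟨j, hj⟩
    refine LinearMap.ext fun z => ?_
    obtain ⟨z, rfl⟩ := Submodule.Quotient.mk_surjective _ z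
    exact LinearMap.congr_fun this z
  let D : ((cok g).T →ₗ[Λ] (cok g).T) →ₗ[k] Matrix t.n t.n k :=
    LinearMap.toMatrix'.toLinearMap ∘ₗ e.conj.toLinearMap ∘ₗ
      LinearMap.restrictScalarsₗ k Λ (cok g).T (cok g).T k
  have hD : ∀ u m, (D u).mulVec (e m) = e (u m) := fun u m => by
    have : Matrix.toLin' (D u) = e.conj (u.restrictScalars k) := Matrix.toLin'_toMatrix' _
    rw [← Matrix.toLin'_apply, this]
    simp
  obtain ⟨u, hu, hu'⟩ := exists_grid _ A2 hA2 hA2' D LinearMap.id (by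
    have : D LinearMap.id = 1 := by
      change LinearMap.toMatrix' (e.conj LinearMap.id) = 1
      rw [LinearEquiv.conj_id, LinearMap.toMatrix'_id]
    rw [this, Matrix.det_one]
    exact one_ne_zero) S₀ hS
  have hui : ∀ m, u m = 0 → m = 0 := fun m hm => by
    have h1 : (D u).mulVec (e m) = 0 := by rw [hD, hm, map_zero]
    exact e.injective ((Matrix.eq_zero_of_mulVec_eq_zero hu h1).trans (map_zero e).symm)
  obtain ⟨A3, hA3, hA3'⟩ := exists_coords
    (fun j => (finBasis k (A.T →ₗ[Λ] B.T)).coord j ∘ₗ post A g) fun w hw => by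
      have : post A g w = 0 := (finBasis k _).forall_coord_eq_zero_iff.1 hw
      exact LinearMap.ext fun a => hg.1 ((LinearMap.congr_fun this a).trans (map_zero g).symm)
  obtain ⟨s₀, hs₀⟩ : S₀.Nonempty := Finset.card_pos.1 (by omega)
  refine ⟨(A1, A2.map (Embedding.subtype _),
    fun j => if h : ℓ j (jS (jE u)) ∈ S₀ then ⟨_, h⟩ else ⟨s₀, hs₀⟩, A3), ⟨?_, ?_, ?_, hA3⟩,
    y, jS (jE u), fun a => ?_, fun s b => ?_, fun π' h1 h2 => ?_, fun j hj => ?_,
    fun f' h1 h2 => ?_⟩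
  · intro j hj
    obtain ⟨j', -, rfl⟩ := Finset.mem_map.1 hj
    exact j'.2
  · rw [hA1]; exact hd_cok hg
  · rw [Finset.card_map, hA2]; exact hσ
  · have : (LinearMap.range g).mkQ (g a) = 0 := (Submodule.Quotient.mk_eq_zero _).2 ⟨a, rfl⟩
    change e (u ((LinearMap.range g).mkQ (g a))) = 0
    rw [this, map_zero, map_zero]
  · rw [hjS, hjS, map_smul, he]
  · let v : B.T →ₗ[Λ] (cok g).T :=
      { toFun := fun b => e.symm (π' b)
        map_add' := fun a b => by rw [map_add, map_add]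
        map_smul' := fun a b => by
          rw [RingHom.id_apply, ← (finBasis k Λ).sum_repr a, Finset.sum_smul, Finset.sum_smul,
            map_sum, map_sum]
          refine Finset.sum_congr rfl fun s _ => ?_
          rw [smul_assoc, smul_assoc, map_smul, map_smul, h1]
          congr 1
          rw [LinearEquiv.symm_apply_eq, he, LinearEquiv.apply_symm_apply] }
    have hv : jS v = π' := LinearMap.ext fun b => e.apply_symm_apply _
    rw [← hv, hA1' v fun j hj => by rw [LinearMap.comp_apply, hv]; exact h2 j hj, map_zero]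
  · obtain ⟨j', hj', rfl⟩ := Finset.mem_map.1 hj
    have h3 : ℓ j' (jS (jE u)) ∈ S₀ := hu' j' hj'
    change ℓ j' (jS (jE u)) =
      ((if h : ℓ j' (jS (jE u)) ∈ S₀ then ⟨_, h⟩ else ⟨s₀, hs₀⟩ : S₀) : k)
    rw [dif_pos h3]
  · obtain ⟨w, rfl⟩ := fact_inj g hg.1 f' fun a => (Submodule.Quotient.mk_eq_zero _).1
      (hui _ (e.injective ((h1 a).trans (map_zero e).symm)))
    rw [hA3' w h2, LinearMap.comp_zero]

theorem InF.congr {I K : Type} [Field K] [Algebra k K] {φ : (I → k) →ₐ[k] K}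
    {F : IntermediateField k K} {V : Type} [AddCommGroup V] [Module k V] {z z' : I → V}
    (h : InF φ F z') (e : ∀ i, z i = z' i) : InF φ F z := funext e ▸ h

theorem card_cell [FiniteDimensional k Λ] (A B : FM k Λ) (t : PT k Λ) (S₀ : Finset k) (q)
    (hq : q.2.1 ⊆ q.1)
    (hZ : ZD (finBasis k (A.T →ₗ[Λ] B.T)).equivFun {g | Cell A B t S₀ q g}) :
    hd A B + q.2.1.card ≤ Fintype.card t.σ + q.1.card + q.2.2.2.card := by
  classical
  choose y π h1 h2 h3 h4 h5 using fun i : {g | Cell A B t S₀ q g} => i.2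
  let ℓ := (finBasis k (B.T →ₗ[k] t.n → k)).coord
  let ℓ' := (finBasis k (A.T →ₗ[Λ] B.T)).coord
  have key := card_le_of_dense (σ := t.σ ⊕ (q.1 \ q.2.1 : Finset _) ⊕ q.2.2.2)
    (fun i : {g | Cell A B t S₀ q g} => (finBasis k (A.T →ₗ[Λ] B.T)).equivFun i.1)
    (fun P hP => hZ P fun g hg => hP ⟨g, hg⟩)
    (Sum.elim (fun s i => y i s) (Sum.elim (fun j i => ℓ j (π i)) (fun j i => ℓ' j i.1))) ?_
  · rw [Fintype.card_fin, Fintype.card_sum, Fintype.card_sum, Fintype.card_coe, Fintype.card_coe,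
      Finset.card_sdiff_of_subset hq] at key
    have := Finset.card_le_card hq
    unfold hd
    omega
  intro K _ _ φ F hF j
  let T1 : {g | Cell A B t S₀ q g} → (B.T →ₗ[k] t.n → k) →ₗ[k]
      ((Fin (finrank k Λ) → B.T →ₗ[k] t.n → k) × (q.1 → k)) := fun i =>
    (LinearMap.pi fun s => LinearMap.lcomp k _ (Algebra.lsmul k k B.T (finBasis k Λ s)) -
      LinearMap.llcomp k _ _ _
        ((t.A (finBasis k Λ s)).map (MvPolynomial.eval (y i))).mulVecLin).prod
      (LinearMap.pi fun j => ℓ j)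
  have hπ : InF φ F π := by
    refine InF.solve (T := T1) (InF.hom fun v => InF.prod (InF.pi fun s =>
      InF.sub (InF.const _) (InF.hom fun b => InF.pi fun r => ?_)) (InF.const _)) (fun i => ?_) ?_
    · have h6 : InF φ F fun i c => MvPolynomial.eval (y i) (t.A (finBasis k Λ s) r c) :=
        InF.pi fun c => InF.of_mem (InF.poly (fun s => hF (Sum.inl s)) _)
      exact (h6.map (Fintype.linearCombination k (v b))).congr fun i => rfl
    · rw [← LinearMap.ker_eq_bot, LinearMap.ker_eq_bot']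
      intro v hv
      refine h3 i v (fun s b => ?_) fun j hj => congrFun (congrArg Prod.snd hv) ⟨j, hj⟩
      exact sub_eq_zero.1 (LinearMap.congr_fun (congrFun (congrArg Prod.fst hv) s) b)
    · refine InF.prod ((InF.const 0).congr fun i => funext fun s => LinearMap.ext fun b =>
        sub_eq_zero.2 (h2 i s b)) (InF.pi fun j => ?_)
      by_cases hj : j.1 ∈ q.2.1
      · exact (InF.const (q.2.2.1 j : k)).congr fun i => h4 i j hj
      · exact InF.of_mem (hF (Sum.inr (Sum.inl ⟨j, Finset.mem_sdiff.2 ⟨j.2, hj⟩⟩)))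
  let T2 : {g | Cell A B t S₀ q g} → (A.T →ₗ[Λ] B.T) →ₗ[k]
      ((A.T →ₗ[k] t.n → k) × (q.2.2.2 → k)) := fun i =>
    (LinearMap.llcomp k _ _ _ (π i) ∘ₗ LinearMap.restrictScalarsₗ k Λ A.T B.T k).prod
      (LinearMap.pi fun j => ℓ' j)
  have hg : InF φ F fun i : {g | Cell A B t S₀ q g} => i.1 := by
    refine InF.solve (T := T2) (InF.hom fun v => InF.prod
      (hπ.map (LinearMap.lcomp k _ (v.restrictScalars k))) (InF.const _)) (fun i => ?_) ?_
    · rw [← LinearMap.ker_eq_bot, LinearMap.ker_eq_bot']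
      intro v hv
      exact h5 i v (fun a => LinearMap.congr_fun (congrArg Prod.fst hv) a)
        fun j hj => congrFun (congrArg Prod.snd hv) ⟨j, hj⟩
    · exact InF.prod ((InF.const 0).congr fun i => LinearMap.ext fun a => h1 i a)
        (InF.pi fun j => InF.of_mem (hF (Sum.inr (Sum.inr j))))
  exact hg (ℓ' j)

/-- The parameter count. -/
theorem count [Infinite k] [FiniteDimensional k Λ] (hT : Tame k Λ) (hBD : BD k Λ)
    {Y1 Y0 : FM k Λ} (f : Y1.T →ₗ[Λ] Y0.T) (hf : Good Y0 f) (hD : Y1.dim < Y0.dim) :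
    hd Y1 Y0 + hd Y0 Y1 < hd Y0 Y0 + hd Y1 Y1 := by
  classical
  have hZ : ZD (finBasis k (Y1.T →ₗ[Λ] Y0.T)).equivFun {g | Good Y0 g} := by
    refine ZD.of_line (finBasis k (Y1.T →ₗ[Λ] Y0.T)).equivFun.toLinearMap
      (finBasis k _).equivFun.surjective f fun g => ?_
    filter_upwards [eventually_rank_ge (phi Y0 f) (phi Y0 g)] with c hc
    refine (good_iff Y0 _).2 ?_
    rw [map_add, map_smul, ← LinearMap.ker_eq_bot, ← Submodule.finrank_eq_zero]
    have h1 := (phi Y0 f + c • phi Y0 g).finrank_range_add_finrank_ker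
    have h2 := LinearMap.finrank_range_of_inj ((good_iff Y0 f).1 hf)
    omega
  obtain ⟨𝒯, h𝒯, hfit⟩ := param_bound hT hBD Y0.dim
  obtain ⟨t, -, ht⟩ := hZ.cover h𝒯 (fun t => {g | Good Y0 g ∧ t.Fits (cok g)}) fun g hg => by
    have h1 := dim_cok hg.1
    obtain ⟨t, ht, ht'⟩ := hfit (cok g) (Module.nontrivial_of_finrank_pos (R := k) (by
      change 0 < (cok g).dim
      omega)) (by omega)
    exact ⟨t, ht, hg, ht'⟩
  obtain ⟨S₀, hS₀⟩ := Infinite.exists_subset_card_eq k (Fintype.card t.n + 1)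
  obtain ⟨q, hq, hq'⟩ := ht.cover (s := {q : Finset (Fin (finrank k (Y0.T →ₗ[k] t.n → k))) ×
      Finset (Fin (finrank k (Y0.T →ₗ[k] t.n → k))) ×
      (Fin (finrank k (Y0.T →ₗ[k] t.n → k)) → S₀) ×
      Finset (Fin (finrank k (Y1.T →ₗ[Λ] Y0.T))) | q.2.1 ⊆ q.1 ∧
      q.1.card + hd Y0 Y1 = hd Y0 Y0 ∧ Fintype.card t.σ < q.2.1.card ∧
      q.2.2.2.card = hd Y1 Y1}) (Set.toFinite _)
    (fun q => {g | Cell Y1 Y0 t S₀ q g}) fun g hg =>
      exists_cell Y1 Y0 t S₀ (by omega) g hg.1 hg.2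
  obtain ⟨h1, h2, h3, h4⟩ := hq
  have := card_cell Y1 Y0 t S₀ q h1 hq'
  omega

end Pool.Agent.Lib.MP_146384_al
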