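import Pool.Agent.Lib.MP_146384_al.Bridge

set_option autoImplicit false

namespace Pool.Agent.Lib.MP_146384_al

open Module Function

/-- Tame representation type: in each dimension, finitely many one-parameter families contain all
indecomposable representations. -/
def Tame (k Λ : Type) [Field k] [Ring Λ] [Algebra k Λ] : Prop :=
  ∀ d : ℕ, ∃ (n : ℕ) (F : Fin n → (Λ →ₐ[k] Matrix (Fin d) (Fin d) (Polynomial k))),
    ∀ ρ : Λ →ₐ[k] Matrix (Fin d) (Fin d) k, 0 < d →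
      (∀ X : Matrix (Fin d) (Fin d) k, (∀ a : Λ, X * ρ a = ρ a * X) → X * X = X →
        X = 0 ∨ X = 1) →
      ∃ (i : Fin n) (c : k) (P : Matrix (Fin d) (Fin d) k), IsUnit P ∧
        ∀ a : Λ, P * ρ a = (F i a).map (Polynomial.eval c) * P

variable {k Λ : Type} [Field k] [Ring Λ] [Algebra k Λ]

/-- Finite products. -/
abbrev FM.pi {I : Type} [Fintype I] (Y : I → FM k Λ) : FM k Λ := { T := ∀ i, (Y i).T }

/-- The cokernel. -/
abbrev cok {Y1 Y0 : FM k Λ} (f : Y1.T →ₗ[Λ] Y0.T) : FM k Λ := Y0.quot (LinearMap.range f)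

/-- Every map from `Z` to the cokernel of `f` lifts. -/
def Lifts (Z : FM k Λ) {Y1 Y0 : FM k Λ} (f : Y1.T →ₗ[Λ] Y0.T) : Prop :=
  ∀ g : Z.T →ₗ[Λ] (cok f).T, ∃ h : Z.T →ₗ[Λ] Y0.T, (LinearMap.range f).mkQ ∘ₗ h = g

/-- `f` is injective and `Hom(Z, -)` keeps its short exact sequence exact. -/
def Good (Z : FM k Λ) {Y1 Y0 : FM k Λ} (f : Y1.T →ₗ[Λ] Y0.T) : Prop :=
  Injective f ∧ Lifts Z f

/-- `Y` is a direct summand of a finite power of `G`. -/
def InAdd (G Y : FM k Λ) : Prop :=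
  ∃ (n : ℕ) (ι : Y.T →ₗ[Λ] (Fin n → G.T)) (p : (Fin n → G.T) →ₗ[Λ] Y.T), p ∘ₗ ι = LinearMap.id

/-- Every brick has a two-step `add G`-resolution. -/
def Res (G : FM k Λ) : Prop :=
  ∀ S : FM k Λ, IsBrick S → ∃ (Y1 Y0 : FM k Λ) (f : Y1.T →ₗ[Λ] Y0.T),
    InAdd G Y1 ∧ InAdd G Y0 ∧ Good G f ∧ Nonempty ((cok f).T ≃ₗ[Λ] S.T)

/-- A polynomial family of matrix representations. -/
structure PT (k Λ : Type) [Field k] [Ring Λ] [Algebra k Λ] : Type 1 where
  n : Type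
  σ : Type
  [fn : Fintype n]
  [dn : DecidableEq n]
  [fσ : Fintype σ]
  A : Λ → Matrix n n (MvPolynomial σ k)

attribute [instance] PT.fn PT.dn PT.fσ

/-- `M` is a member of the family `t`, which has fewer than `dim End M` parameters. -/
def PT.Fits (t : PT k Λ) (M : FM k Λ) : Prop :=
  Fintype.card t.σ < hd M M ∧ ∃ (x : t.σ → k) (e : M.T ≃ₗ[k] (t.n → k)),
    ∀ (a : Λ) (m : M.T), e (a • m) = ((t.A a).map (MvPolynomial.eval x)).mulVec (e m)

end Pool.Agent.Lib.MP_146384_al
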