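import Mathlib

set_option autoImplicit false

namespace Pool.Agent.Lib.MP_146384_al

theorem drozd_core {σ : Type} [Fintype σ] (β : (σ → ℕ) →+ (σ → ℕ) →+ ℤ) (D : (σ → ℕ) →+ ℤ)
    (H : ∀ v, (0 < D v ∧ 0 < β v v) ∨ (D v = 0 ∧ ∀ w, β v w = 0 ∧ β w v = 0)) :
    ∃ B : ℤ, ∀ v, β v v ≤ 1 → D v ≤ B := by
  classical
  by_contra hc
  push Not at hc
  have hq : ∀ v, 0 ≤ β v v := fun v => (H v).elim (fun h => h.2.le) fun h => (h.2 v).1.ge
  choose nx h1 h2 using hc
  let f : ℕ → σ → ℕ := fun k => (fun v => nx (D v))^[k + 1] 0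
  have hf : ∀ k, f (k + 1) = nx (D (f k)) := fun k => Function.iterate_succ_apply' _ _ _
  have hf1 : ∀ k, β (f k) (f k) ≤ 1 := fun k => by
    have : f k = nx (D ((fun v => nx (D v))^[k] 0)) := Function.iterate_succ_apply' _ _ _
    rw [this]
    exact h1 _
  have hmono : StrictMono fun k => D (f k) := strictMono_nat_of_lt_succ fun k => by
    rw [hf]
    exact h2 _
  let e : σ → σ → ℕ := fun g => Pi.single g 1
  let c : (σ → ℕ) → σ → ℤ := fun v g =>
    if v g = 0 then 2 + β (e g) (e g) else β v (e g) + β (e g) v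
  have hup : ∀ v g, v g ≠ 0 → β v v ≤ 1 → β v (e g) + β (e g) v ≤ 1 + β (e g) (e g) := by
    intro v g hg hv
    obtain ⟨w, rfl⟩ : ∃ w, v = e g + w := exists_add_of_le (a := e g) (b := v) (by
      intro j
      by_cases hj : j = g
      · subst hj
        simp only [e, Pi.single_eq_same]
        omega
      · simp [e, Pi.single_eq_of_ne hj])
    have := hq w
    simp only [map_add, AddMonoidHom.add_apply] at hv ⊢
    omega
  have hlo : ∀ v g, β v v ≤ 1 → -1 - β (e g) (e g) ≤ β v (e g) + β (e g) v := by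
    intro v g hv
    have := hq (v + e g)
    simp only [map_add, AddMonoidHom.add_apply] at this
    omega
  obtain ⟨s, hs⟩ := (wellQuasiOrdered_le (α := σ → ℕ)).exists_monotone_subseq f
  obtain ⟨a, b, hab, hcc⟩ := Set.Finite.exists_lt_map_eq_of_forall_mem
    (f := fun k => c (f (s k)))
    (t := {x | ∀ g, x g ∈ Set.Icc (-1 - β (e g) (e g)) (2 + β (e g) (e g))})
    (fun k g => by
      have := hq (e g)
      by_cases hg : f (s k) g = 0
      · simp only [c, hg, if_true, Set.mem_Icc]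
        omega
      · have h3 := hup _ g hg (hf1 _)
        have h4 := hlo _ g (hf1 (s k))
        simp only [c, hg, if_false, Set.mem_Icc]
        omega)
    (Set.Finite.pi' fun g => Set.finite_Icc _ _)
  have hD : D (f (s a)) < D (f (s b)) := hmono (s.strictMono hab)
  have ha := hf1 (s a)
  have hb := hf1 (s b)
  obtain ⟨m, hm⟩ := exists_add_of_le (hs a b hab.le)
  generalize f (s a) = u at hD ha hcc hm
  generalize f (s b) = w at hD hb hcc hm
  subst hm
  have hDm : 0 < D m := by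
    rw [map_add] at hD
    omega
  have hqm : 0 < β m m := (H m).elim (fun h => h.2) fun h => by omega
  have hz : ∀ g, m g • (β m (e g) + β (e g) m) = 0 := by
    intro g
    by_cases hg : m g = 0
    · rw [hg, zero_smul]
    · have h5 : (u + m) g ≠ 0 := by
        simp only [Pi.add_apply]
        omega
      have h6 := hup _ g h5 hb
      have h7 : c u g = c (u + m) g := congrFun hcc g
      simp only [c, h5, if_false] at h7
      by_cases h8 : u g = 0
      · simp only [h8, if_true] at h7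
        omega
      · simp only [h8, if_false, map_add, AddMonoidHom.add_apply] at h7
        rw [show β m (e g) + β (e g) m = 0 by omega, smul_zero]
  have hs : m = ∑ g, m g • e g := by
    funext j
    simp [e, Finset.sum_apply, Pi.single_apply]
  have h9 : β m m + β m m = ∑ g, m g • (β m (e g) + β (e g) m) := by
    have e1 : β m m = ∑ g, m g • β m (e g) := by
      conv_lhs => rw [show β m m = β m (∑ g, m g • e g) by rw [← hs]]
      simp only [map_sum, map_nsmul]
    have e2 : β m m = ∑ g, m g • β (e g) m := by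
      conv_lhs => rw [show β m m = β.flip m (∑ g, m g • e g) by rw [← hs]; rfl]
      simp only [map_sum, map_nsmul, AddMonoidHom.flip_apply]
    simp only [smul_add, Finset.sum_add_distrib]
    rw [← e1, ← e2]
  rw [Finset.sum_eq_zero fun g _ => hz g] at h9
  omega

theorem drozd_bound {ι : Type} [Fintype ι] (T : Set ((ι → ℕ) × (ι → ℕ))) (hT : T.Finite)
    (β : ((ι → ℕ) × (ι → ℕ)) →+ ((ι → ℕ) × (ι → ℕ)) →+ ℤ) (D : ((ι → ℕ) × (ι → ℕ)) →+ ℤ)
    (H : ∀ v : (ι → ℕ) × (ι → ℕ), (∀ t ∈ T, ∑ i, v.1 i * t.1 i ≤ ∑ i, v.2 i * t.2 i) →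
      (0 < D v ∧ 0 < β v v) ∨ (D v = 0 ∧ ∀ w, β v w = 0 ∧ β w v = 0)) :
    ∃ B : ℤ, ∀ v : (ι → ℕ) × (ι → ℕ), (∀ t ∈ T, ∑ i, v.1 i * t.1 i ≤ ∑ i, v.2 i * t.2 i) →
      β v v ≤ 1 → D v ≤ B := by
  classical
  have := hT.fintype
  let P : AddSubmonoid (((ι → ℕ) × (ι → ℕ)) × (T → ℕ)) :=
    { carrier := {x | ∀ t : T, ∑ i, x.1.1 i * t.1.1 i + x.2 t = ∑ i, x.1.2 i * t.1.2 i}
      zero_mem' := fun t => by simp
      add_mem' := fun {a b} ha hb t => by
        have h1 := ha t
        have h2 := hb t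
        simp only [Prod.fst_add, Prod.snd_add, Pi.add_apply, add_mul, Finset.sum_add_distrib]
        omega }
  have hP : P.FG := AddSubmonoid.fg_of_subtractive fun a ha b hab t => by
    have h1 := ha t
    have h2 := hab t
    simp only [Prod.fst_add, Prod.snd_add, Pi.add_apply, add_mul, Finset.sum_add_distrib] at h2
    omega
  obtain ⟨S, hS⟩ := hP
  let φ : (S → ℕ) →+ (((ι → ℕ) × (ι → ℕ)) × (T → ℕ)) :=
    { toFun := fun n => ∑ g : S, n g • g.1
      map_zero' := by simp
      map_add' := fun a b => by simp only [Pi.add_apply, add_nsmul, Finset.sum_add_distrib] }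
  have hφ : ∀ n, φ n ∈ P := fun n => by
    rw [← hS]
    exact AddSubmonoid.sum_mem _ fun g _ =>
      AddSubmonoid.nsmul_mem _ (AddSubmonoid.subset_closure g.2) _
  let ψ : (S → ℕ) →+ ((ι → ℕ) × (ι → ℕ)) := (AddMonoidHom.fst _ _).comp φ
  obtain ⟨B, hB⟩ := drozd_core ((β.comp ψ).flip.comp ψ).flip (D.comp ψ) fun n => by
    rcases H (ψ n) (fun t ht => Nat.le.intro (hφ n ⟨t, ht⟩)) with h | h
    · exact Or.inl h
    · exact Or.inr ⟨h.1, fun w => h.2 (ψ w)⟩
  refine ⟨B, fun v hv hq => ?_⟩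
  have hm : (v, fun t : T => ∑ i, v.2 i * t.1.2 i - ∑ i, v.1 i * t.1.1 i) ∈ P := fun t =>
    Nat.add_sub_cancel' (hv t.1 t.2)
  rw [← hS] at hm
  obtain ⟨n, hn⟩ := AddSubmonoid.mem_closure_finset'.1 hm
  have e : v = ψ n := congrArg Prod.fst hn
  rw [e] at hq ⊢
  exact hB n hq

end Pool.Agent.Lib.MP_146384_al
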