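import Pool.Agent.Lib.MP_146384_al.R.Defs

set_option autoImplicit false

namespace Pool.Agent.Lib.MP_146384_al

open Module Function

variable {k Λ : Type} [Field k] [Ring Λ] [Algebra k Λ]

/-- Nonzero, and every endomorphism is a unit or nilpotent. -/
def ks_Ind (X : FM k Λ) : Prop :=
  Nontrivial X.T ∧ ∀ φ : Module.End Λ X.T, IsUnit φ ∨ IsNilpotent φ

theorem ks_dec (M : FM k Λ) : ∃ (I : Type) (_ : Fintype I) (X : I → FM k Λ),
    (∀ i, ks_Ind (X i)) ∧ Nonempty (M.T ≃ₗ[Λ] ∀ i, (X i).T) := by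
  induction h : M.dim using Nat.strong_induction_on generalizing M with
  | _ n ih =>
    rcases subsingleton_or_nontrivial M.T with h0 | h0
    · exact ⟨Empty, inferInstance, fun _ => M, fun i => i.elim, ⟨LinearEquiv.ofSubsingleton _ _⟩⟩
    by_cases h1 : ks_Ind M
    · exact ⟨Unit, inferInstance, fun _ => M, fun _ => h1,
        ⟨(LinearEquiv.funUnique Unit Λ M.T).symm⟩⟩
    obtain ⟨φ, hφ⟩ : ∃ φ : Module.End Λ M.T, ¬ (IsUnit φ ∨ IsNilpotent φ) :=
      not_forall.1 fun h2 => h1 ⟨h0, h2⟩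
    obtain ⟨N, hN, hN1⟩ := ((LinearMap.eventually_isCompl_ker_pow_range_pow φ).and
      (Filter.eventually_ge_atTop 1)).exists
    have h2 : LinearMap.ker (φ ^ N) ≠ ⊤ := fun e => hφ (Or.inr ⟨N, LinearMap.ker_eq_top.1 e⟩)
    have h3 : LinearMap.range (φ ^ N) ≠ ⊤ := fun e => hφ (Or.inl ((isUnit_pow_iff (by omega)).1
      ((Module.End.isUnit_iff (φ ^ N)).2 (bij_of_surj (LinearMap.range_eq_top.1 e)))))
    obtain ⟨I1, _, X1, hX1, ⟨e1⟩⟩ := ih _ (h ▸ dim_sub_lt M h2) (M.sub _) rfl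
    obtain ⟨I2, _, X2, hX2, ⟨e2⟩⟩ := ih _ (h ▸ dim_sub_lt M h3) (M.sub _) rfl
    refine ⟨I1 ⊕ I2, inferInstance, Sum.elim X1 X2, fun i => ?_,
      ⟨(Submodule.prodEquivOfIsCompl _ _ hN).symm.trans ((e1.prodCongr e2).trans
        (LinearEquiv.sumPiEquivProdPi Λ I1 I2 fun i => (Sum.elim X1 X2 i).T).symm)⟩⟩
    cases i with
    | inl i => exact hX1 i
    | inr i => exact hX2 i

theorem ks_unit {X : FM k Λ} (hX : ks_Ind X) {J : Type} (ψ : J → Module.End Λ X.T)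
    (s : Finset J) (h : IsUnit (∑ j ∈ s, ψ j)) : ∃ j, IsUnit (ψ j) := by
  classical
  have := hX.1
  induction s using Finset.induction_on with
  | empty => exact absurd h (by rw [Finset.sum_empty]; exact not_isUnit_zero)
  | insert a s ha ih =>
    rw [Finset.sum_insert ha] at h
    obtain ⟨u, hu⟩ := h
    rcases hX.2 (ψ a * ↑u⁻¹) with h1 | h1
    · exact ⟨a, (Units.isUnit_mul_units _ u⁻¹).1 h1⟩
    · refine ih ((Units.isUnit_mul_units _ u⁻¹).1 ?_)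
      have h2 : (∑ j ∈ s, ψ j) * ↑u⁻¹ = 1 - ψ a * ↑u⁻¹ := by
        rw [eq_sub_iff_add_eq', ← add_mul, ← hu, Units.mul_inv]
      rw [h2]
      exact h1.isUnit_one_sub

theorem ks_iso {X Z : FM k Λ} (hX : ks_Ind X) (hZ : ks_Ind Z) (α : X.T →ₗ[Λ] Z.T)
    (β : Z.T →ₗ[Λ] X.T) (h : IsUnit (β ∘ₗ α : Module.End Λ X.T)) : Nonempty (X.T ≃ₗ[Λ] Z.T) := by
  have := hX.1
  have hi : Injective α := Injective.of_comp (f := β) ((Module.End.isUnit_iff _).1 h).1
  rcases hZ.2 (α ∘ₗ β) with h1 | ⟨m, hm⟩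
  · exact ⟨LinearEquiv.ofBijective α
      ⟨hi, Surjective.of_comp (g := β) ((Module.End.isUnit_iff _).1 h1).2⟩⟩
  · have h2 : ∀ (n : ℕ) (x : X.T), α (((β ∘ₗ α : Module.End Λ X.T) ^ n) x) =
        ((α ∘ₗ β : Module.End Λ Z.T) ^ n) (α x) := fun n => by
      induction n with
      | zero => exact fun _ => rfl
      | succ n ih =>
        intro x
        rw [pow_succ, pow_succ, Module.End.mul_apply, Module.End.mul_apply, ih]
        rfl
    refine absurd (h.pow m) ?_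
    have h3 : (β ∘ₗ α : Module.End Λ X.T) ^ m = 0 := LinearMap.ext fun x => hi (by
      rw [h2, hm, LinearMap.zero_apply, LinearMap.zero_apply, map_zero])
    rw [h3]
    exact not_isUnit_zero

theorem exists_add_family (G : FM k Λ) :
    ∃ (ι : Type) (_ : Fintype ι) (Gs : ι → FM k Λ), (∀ j, InAdd G (Gs j)) ∧
      ∀ Y : FM k Λ, InAdd G Y → ∃ (I : Type) (_ : Fintype I) (c : I → ι),
        Nonempty (Y.T ≃ₗ[Λ] ∀ i, (Gs (c i)).T) := by
  classical
  obtain ⟨ι, _, Gs, hG, ⟨e⟩⟩ := ks_dec G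
  refine ⟨ι, inferInstance, Gs, fun j => ⟨1,
    LinearMap.pi fun _ => e.symm.toLinearMap ∘ₗ LinearMap.single Λ (fun j => (Gs j).T) j,
    LinearMap.proj j ∘ₗ e.toLinearMap ∘ₗ LinearMap.proj 0, LinearMap.ext fun x => by simp⟩, ?_⟩
  rintro Y ⟨n, a, b, hab⟩
  obtain ⟨I, _, X, hX, ⟨d⟩⟩ := ks_dec Y
  have key : ∀ i, ∃ j, Nonempty ((X i).T ≃ₗ[Λ] (Gs j).T) := fun i => by
    let α : ∀ q : Fin n × ι, (X i).T →ₗ[Λ] (Gs q.2).T := fun q =>
      LinearMap.proj q.2 ∘ₗ e.toLinearMap ∘ₗ LinearMap.proj q.1 ∘ₗ a ∘ₗ d.symm.toLinearMap ∘ₗ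
        LinearMap.single Λ (fun i => (X i).T) i
    let β : ∀ q : Fin n × ι, (Gs q.2).T →ₗ[Λ] (X i).T := fun q =>
      LinearMap.proj i ∘ₗ d.toLinearMap ∘ₗ b ∘ₗ LinearMap.single Λ (fun _ : Fin n => G.T) q.1 ∘ₗ
        e.symm.toLinearMap ∘ₗ LinearMap.single Λ (fun j => (Gs j).T) q.2
    have h1 : ∑ q, (β q ∘ₗ α q : Module.End Λ (X i).T) = 1 := LinearMap.ext fun x => by
      have h2 : ∀ y, b (a y) = y := fun y => LinearMap.congr_fun hab y
      rw [LinearMap.sum_apply, Fintype.sum_prod_type]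
      simp only [α, β, LinearMap.comp_apply, ← map_sum]
      simp only [LinearMap.single_apply, LinearMap.proj_apply, Finset.univ_sum_single,
        LinearEquiv.coe_coe, LinearEquiv.symm_apply_apply, h2, LinearEquiv.apply_symm_apply,
        Pi.single_eq_same, Module.End.one_apply]
    obtain ⟨q, hq⟩ := ks_unit (hX i) (fun q => β q ∘ₗ α q) Finset.univ (h1 ▸ isUnit_one)
    exact ⟨q.2, ks_iso (hX i) (hG q.2) (α q) (β q) hq⟩
  choose c hc using key
  exact ⟨I, inferInstance, c, ⟨d.trans (LinearEquiv.piCongrRight fun i => (hc i).some)⟩⟩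

end Pool.Agent.Lib.MP_146384_al
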