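import Pool.Agent.Lib.MP_146384_al.R.Defs

set_option autoImplicit false

namespace Pool.Agent.Lib.MP_146384_al

open Module Function

variable {k Λ : Type} [Field k] [Ring Λ] [Algebra k Λ]

/-- The stabiliser inequality for an injective map. -/
theorem stab_ineq {Y1 Y0 : FM k Λ} (f : Y1.T →ₗ[Λ] Y0.T) (hf : Injective f) :
    hd Y1 Y1 + hd Y0 Y0 ≤ hd Y1 Y0 + hd Y0 Y1 + hd (cok f) (cok f) := by
  let L : ((Y1.T →ₗ[Λ] Y1.T) × (Y0.T →ₗ[Λ] Y0.T)) →ₗ[k] (Y1.T →ₗ[Λ] Y0.T) :=
    (post Y1 f).coprod (-(pre f Y0))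
  have hL : ∀ x : LinearMap.ker L, ∀ y, x.1.2 (f y) = f (x.1.1 y) := fun x y => by
    have h : f (x.1.1 y) + -(x.1.2 (f y)) = 0 := LinearMap.congr_fun x.2 y
    exact (add_neg_eq_zero.1 h).symm
  have hle : ∀ x : LinearMap.ker L, LinearMap.range f ≤ (LinearMap.range f).comap x.1.2 := by
    rintro x _ ⟨y, rfl⟩
    exact ⟨_, (hL x y).symm⟩
  let r : LinearMap.ker L →ₗ[k] ((cok f).T →ₗ[Λ] (cok f).T) :=
    { toFun := fun x => Submodule.mapQ _ _ x.1.2 (hle x)
      map_add' := fun x y => by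
        refine LinearMap.ext fun z => ?_
        obtain ⟨z, rfl⟩ := Submodule.Quotient.mk_surjective _ z
        rfl
      map_smul' := fun c x => by
        refine LinearMap.ext fun z => ?_
        obtain ⟨z, rfl⟩ := Submodule.Quotient.mk_surjective _ z
        rfl }
  let j : (Y0.T →ₗ[Λ] Y1.T) →ₗ[k] LinearMap.ker L :=
    LinearMap.codRestrict _ ((pre f Y1).prod (post Y0 f)) fun w =>
      LinearMap.ext fun y => add_neg_cancel (f (w (f y)))
  have hker : LinearMap.ker r ≤ LinearMap.range j := by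
    intro x hx
    have h1 : ∀ z, x.1.2 z ∈ LinearMap.range f := fun z =>
      (Submodule.Quotient.mk_eq_zero _).1 (LinearMap.congr_fun hx (Submodule.Quotient.mk z))
    let w : Y0.T →ₗ[Λ] Y1.T :=
      (LinearEquiv.ofInjective f hf).symm.toLinearMap ∘ₗ LinearMap.codRestrict _ x.1.2 h1
    have hw : ∀ z, f (w z) = x.1.2 z := fun z =>
      congrArg Subtype.val ((LinearEquiv.ofInjective f hf).apply_symm_apply ⟨x.1.2 z, h1 z⟩)
    refine ⟨w, Subtype.ext (Prod.ext (LinearMap.ext fun y => hf ?_) (LinearMap.ext hw))⟩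
    exact (hw (f y)).trans (hL x y)
  have h1 := L.finrank_range_add_finrank_ker
  have h2 := r.finrank_range_add_finrank_ker
  have h3 := Submodule.finrank_mono hker
  have h4 := LinearMap.finrank_range_le j
  have h5 := Submodule.finrank_le (LinearMap.range r)
  have h6 := Submodule.finrank_le (LinearMap.range L)
  rw [finrank_prod] at h1
  unfold hd
  omega

end Pool.Agent.Lib.MP_146384_al
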