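import Pool.Agent.Lib.MP_146384_al.R.Mon
import Pool.Agent.Lib.MP_146384_al.R.Count
import Pool.Agent.Lib.MP_146384_al.R.Stab
import Pool.Agent.Lib.MP_146384_al.R.KS
import Pool.Agent.Lib.MP_146384_al.R.Drozd

set_option autoImplicit false

namespace Pool.Agent.Lib.MP_146384_al

open Module Function

variable {k Λ : Type} [Field k] [Ring Λ] [Algebra k Λ]

theorem hd_brick [IsAlgClosed k] {S : FM k Λ} (h : IsBrick S) : hd S S ≤ 1 := by
  have := h.1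
  refine finrank_le_one LinearMap.id fun φ => ?_
  obtain ⟨c, hc⟩ := Module.End.exists_eigenvalue (φ.restrictScalars k)
  obtain ⟨v, hv⟩ := hc.exists_hasEigenvector
  refine ⟨c, ?_⟩
  by_contra hne
  refine hv.2 ((h.2 _ (_root_.sub_ne_zero.2 hne)).1 ?_)
  rw [map_zero]
  exact sub_eq_zero.2 hv.apply_eq_smul.symm

variable {ι : Type} [Fintype ι]

/-- The functional with weights `x` on sources and `y` on targets. -/
def wt (x y : ι → ℤ) : ((ι → ℕ) × (ι → ℕ)) →+ ℤ :=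
  AddMonoidHom.mk' (fun v => ∑ p, (v.2 p : ℤ) * y p - ∑ p, (v.1 p : ℤ) * x p) fun v w => by
    simp only [Prod.fst_add, Prod.snd_add, Pi.add_apply, Nat.cast_add, add_mul,
      Finset.sum_add_distrib]
    ring

theorem wt_apply (x y : ι → ℤ) (v : (ι → ℕ) × (ι → ℕ)) :
    wt x y v = ∑ p, (v.2 p : ℤ) * y p - ∑ p, (v.1 p : ℤ) * x p := rfl

/-- The bilinear form of the two families. -/
noncomputable def frm (G G' : ι → FM k Λ) : ((ι → ℕ) × (ι → ℕ)) →+ ((ι → ℕ) × (ι → ℕ)) →+ ℤ :=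
  AddMonoidHom.mk' (fun v =>
    wt (fun q => wt (fun p => hd (G p) (G q)) (fun p => hd (G' p) (G q)) v)
      (fun q => wt (fun p => hd (G p) (G' q)) (fun p => hd (G' p) (G' q)) v)) fun v w => by
    refine AddMonoidHom.ext fun z => ?_
    simp only [map_add, AddMonoidHom.add_apply]
    simp only [wt_apply (v := z), mul_add, Finset.sum_add_distrib]
    ring

theorem frm_eq {G G' : ι → FM k Λ} {Y1 Y0 X1 X0 : FM k Λ} {v w : (ι → ℕ) × (ι → ℕ)}
    (h1 : Cls G Y1 v.1) (h0 : Cls G' Y0 v.2) (h1' : Cls G X1 w.1) (h0' : Cls G' X0 w.2) :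
    frm G G' v w = (hd Y0 X0 : ℤ) - hd Y1 X0 - hd Y0 X1 + hd Y1 X1 := by
  have e : ∀ N : FM k Λ, wt (fun p => (hd (G p) N : ℤ)) (fun p => hd (G' p) N) v =
      (hd Y0 N : ℤ) - hd Y1 N := fun N => by
    rw [wt_apply, h1.hd_left, h0.hd_left]
    push_cast
    rfl
  change wt _ _ w = _
  simp only [e]
  rw [wt_apply, h1'.hd_right Y0, h1'.hd_right Y1, h0'.hd_right Y0, h0'.hd_right Y1]
  simp only [mul_sub, Finset.sum_sub_distrib]
  push_cast
  ring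

theorem wt_dim {G G' : ι → FM k Λ} {Y1 Y0 : FM k Λ} {v : (ι → ℕ) × (ι → ℕ)}
    (h1 : Cls G Y1 v.1) (h0 : Cls G' Y0 v.2) :
    wt (fun p => ((G p).dim : ℤ)) (fun p => (G' p).dim) v = (Y0.dim : ℤ) - Y1.dim := by
  rw [wt_apply, h1.dim, h0.dim]
  push_cast
  rfl

theorem bounded_res [IsAlgClosed k] [FiniteDimensional k Λ] (hT : Tame k Λ) (hBD : BD k Λ)
    (X Y : FM k Λ) : ∃ B : ℕ, ∀ (Y1 Y0 : FM k Λ) (f : Y1.T →ₗ[Λ] Y0.T),
      InAdd X Y1 → InAdd Y Y0 → Good Y f → IsBrick (cok f) → (cok f).dim ≤ B := by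
  obtain ⟨ι1, _, G1, -, hG1⟩ := exists_add_family X
  obtain ⟨ι0, _, G0, hG0, hG0'⟩ := exists_add_family Y
  let G : ι1 ⊕ ι0 → FM k Λ := Sum.elim G1 fun _ => X
  let G' : ι1 ⊕ ι0 → FM k Λ := Sum.elim (fun _ => Y) G0
  have hl : ∀ {Y1 Y0 : FM k Λ} {f : Y1.T →ₗ[Λ] Y0.T}, Lifts Y f → ∀ p, Lifts (G' p) f := by
    rintro Y1 Y0 f h (p | p)
    · exact h
    · exact (hG0 p).lifts h
  obtain ⟨B, hB⟩ := drozd_bound (Tst Y G G') (tst_finite Y G G') (frm G G')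
    (wt (fun p => ((G p).dim : ℤ)) (fun p => (G' p).dim)) fun v hv => by
      obtain ⟨Y1, h1⟩ := exists_cls G v.1
      obtain ⟨Y0, h0⟩ := exists_cls G' v.2
      obtain ⟨l, hl0, f, hf⟩ := good_of_mon h1 h0 hv
      have k1 : Cls G _ (l • v).1 := h1.pow l
      have k0 : Cls G' _ (l • v).2 := h0.pow l
      have hl1 : (0 : ℤ) < l := by exact_mod_cast hl0
      have e1 := wt_dim k1 k0
      rw [map_nsmul, nsmul_eq_mul] at e1
      rcases (dim_le_of_inj f hf.1).lt_or_eq with hlt | heq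
      · have e2 := frm_eq k1 k0 k1 k0
        have e3 := count hT hBD f ⟨hf.1, k0.lifts (hl hf.2)⟩ hlt
        rw [map_nsmul, map_nsmul, AddMonoidHom.nsmul_apply, nsmul_eq_mul, nsmul_eq_mul] at e2
        refine Or.inl ⟨(mul_pos_iff_of_pos_left hl1).1 (by omega), ?_⟩
        exact (mul_pos_iff_of_pos_left hl1).1 ((mul_pos_iff_of_pos_left hl1).1 (by omega))
      · have hs : Surjective f :=
          (LinearMap.injective_iff_surjective_of_finrank_eq_finrank heq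
            (f := f.restrictScalars k)).1 hf.1
        let E := LinearEquiv.ofBijective f ⟨hf.1, hs⟩
        refine Or.inr ⟨(mul_eq_zero_iff_left hl1.ne').1 (by omega), fun w => ?_⟩
        obtain ⟨X1, j1⟩ := exists_cls G w.1
        obtain ⟨X0, j0⟩ := exists_cls G' w.2
        have e2 := frm_eq k1 k0 j1 j0
        have e3 := frm_eq j1 j0 k1 k0
        rw [map_nsmul, AddMonoidHom.nsmul_apply, nsmul_eq_mul, hd_congr_left E X0,
          hd_congr_left E X1] at e2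
        rw [map_nsmul, nsmul_eq_mul, hd_congr X0 E, hd_congr X1 E] at e3
        exact ⟨(mul_eq_zero_iff_left hl1.ne').1 (by omega),
          (mul_eq_zero_iff_left hl1.ne').1 (by omega)⟩
  refine ⟨B.toNat, fun Y1 Y0 f h1 h0 hf hb => ?_⟩
  obtain ⟨I, _, c, ⟨e1⟩⟩ := hG1 Y1 h1
  obtain ⟨J, _, d, ⟨e0⟩⟩ := hG0' Y0 h0
  obtain ⟨a, ha⟩ := cls_of_equiv (G := G) (c := fun i => Sum.inl (c i)) e1
  obtain ⟨b, hb'⟩ := cls_of_equiv (G := G') (c := fun j => Sum.inr (d j)) e0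
  have e2 := frm_eq (v := (a, b)) (w := (a, b)) ha hb' ha hb'
  have e3 := stab_ineq f hf.1
  have e4 := hd_brick hb
  have e5 := hB (a, b) (mon_of_good ha hb' hf) (by omega)
  rw [wt_dim (v := (a, b)) ha hb'] at e5
  have e6 := dim_cok hf.1
  omega

theorem many_of_res (k : Type) [Field k] [IsAlgClosed k] (Λ : Type) [Ring Λ] [Algebra k Λ]
    [FiniteDimensional k Λ] (hT : Tame k Λ) (X Y : FM k Λ)
    (h : ∀ B : ℕ, ∃ (n m : ℕ) (X₁ X₂ : Submodule Λ (Fin n → X.T))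
      (Y₀ Y₂ : Submodule Λ (Fin m → Y.T)) (f : X₁ →ₗ[Λ] Y₀),
      IsCompl X₁ X₂ ∧ IsCompl Y₀ Y₂ ∧ Injective f ∧
      (∀ g : Y.T →ₗ[Λ] (Y₀ ⧸ LinearMap.range f), ∃ h : Y.T →ₗ[Λ] Y₀,
        (LinearMap.range f).mkQ ∘ₗ h = g) ∧
      B < finrank k (Y₀ ⧸ LinearMap.range f) ∧
      ∀ φ : (Y₀ ⧸ LinearMap.range f) →ₗ[Λ] (Y₀ ⧸ LinearMap.range f), φ ≠ 0 → Bijective φ) :
    ManyBricks k Λ := by
  by_contra hc
  obtain ⟨B, hB⟩ := bounded_res hT (BD_of_not_many hc) X Y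
  obtain ⟨n, m, X₁, X₂, Y₀, Y₂, f, hX, hY, hf, hl, hd, hb⟩ := h B
  refine absurd (hB ((FM.pi fun _ : Fin n => X).sub X₁) ((FM.pi fun _ : Fin m => Y).sub Y₀) f
    ⟨n, X₁.subtype, _, Submodule.projectionOnto_comp_subtype hX⟩
    ⟨m, Y₀.subtype, _, Submodule.projectionOnto_comp_subtype hY⟩ ⟨hf, hl⟩
    ⟨Module.nontrivial_of_finrank_pos (R := k) (Nat.zero_lt_of_lt hd), hb⟩) (not_le.2 hd)

end Pool.Agent.Lib.MP_146384_al
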