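import Pool.Agent.Lib.MP_146384_al.R.Phi

set_option autoImplicit false

namespace Pool.Agent.Lib.MP_146384_al

open Module Function

variable {k Λ : Type} [Field k] [Ring Λ] [Algebra k Λ]

theorem finrank_le_of_maps {A B : Type} [AddCommGroup A] [Module k A] [AddCommGroup B]
    [Module k B] [FiniteDimensional k B] (L : A →ₗ[k] B) (hL : Injective L) (U : Submodule k A)
    (W : Submodule k B) (h : ∀ u ∈ U, L u ∈ W) : finrank k U ≤ finrank k W :=
  LinearMap.finrank_le_finrank_of_injective (f := L.restrict h) fun _ _ hxy =>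
    Subtype.ext (hL (congrArg Subtype.val hxy))

theorem finrank_pi_sub {I : Type} [Fintype I] {A : I → Type} [∀ i, AddCommGroup (A i)]
    [∀ i, Module k (A i)] [∀ i, FiniteDimensional k (A i)] (U : ∀ i, Submodule k (A i)) :
    finrank k (Submodule.pi Set.univ U) = ∑ i, finrank k (U i) := by
  rw [← Module.finrank_pi_fintype]
  refine (LinearEquiv.ofBijective (LinearMap.codRestrict (Submodule.pi Set.univ U)
    (LinearMap.piMap fun i => (U i).subtype) fun x i _ => (x i).2) ⟨fun x y h => ?_, ?_⟩).finrank_eq.symm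
  · exact funext fun i => Subtype.ext (congrFun (congrArg Subtype.val h) i)
  · rintro ⟨x, hx⟩
    exact ⟨fun i => ⟨x i, hx i trivial⟩, rfl⟩

section Dec

variable {I : Type} [Fintype I] {Y : FM k Λ} {X : I → FM k Λ} (e : Y.T ≃ₗ[Λ] ∀ i, (X i).T)

/-- Projection to a summand. -/
def pr (i : I) : Y.T →ₗ[Λ] (X i).T := LinearMap.proj i ∘ₗ e.toLinearMap

open Classical in
/-- Inclusion of a summand. -/
noncomputable def inc (i : I) : (X i).T →ₗ[Λ] Y.T :=
  e.symm.toLinearMap ∘ₗ LinearMap.single Λ (fun i => (X i).T) i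

theorem sum_inc_pr : ∑ i, inc e i ∘ₗ pr e i = LinearMap.id := by
  classical
  refine LinearMap.ext fun y => e.injective ?_
  simp only [inc, pr, LinearMap.sum_apply, LinearMap.comp_apply, map_sum, LinearEquiv.coe_coe,
    LinearEquiv.apply_symm_apply, LinearMap.proj_apply, LinearMap.single_apply, LinearMap.id_apply]
  convert Finset.univ_sum_single (e y)

omit [Fintype I] in
theorem pr_inc_same (i : I) : pr e i ∘ₗ inc e i = LinearMap.id := by
  ext x
  simp [inc, pr]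

omit [Fintype I] in
theorem pr_inc_ne {i j : I} (h : i ≠ j) : pr e i ∘ₗ inc e j = 0 := by
  classical
  ext x
  simp only [inc, pr, LinearMap.comp_apply, LinearEquiv.coe_coe, LinearEquiv.apply_symm_apply,
    LinearMap.proj_apply, LinearMap.single_apply, LinearMap.zero_apply]
  convert Pi.single_eq_of_ne (M := fun i => (X i).T) h x

variable (Z : FM k Λ)

/-- Assemble. -/
noncomputable def up : (∀ i, Phi Z (X i)) →ₗ[k] Phi Z Y :=
  ∑ i, phi Z (inc e i) ∘ₗ LinearMap.proj i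

/-- Disassemble. -/
def down : Phi Z Y →ₗ[k] ∀ i, Phi Z (X i) := LinearMap.pi fun i => phi Z (pr e i)

theorem up_apply (x : ∀ i, Phi Z (X i)) : up e Z x = ∑ i, phi Z (inc e i) (x i) := by
  simp [up, LinearMap.sum_apply]

theorem up_down (x : Phi Z Y) : up e Z (down e Z x) = x := by
  rw [up_apply]
  simp only [down, LinearMap.pi_apply, ← phi_comp]
  rw [← LinearMap.sum_apply, ← map_sum, sum_inc_pr, phi_id]

theorem down_up (x : ∀ i, Phi Z (X i)) : down e Z (up e Z x) = x := by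
  funext i
  rw [up_apply, down, LinearMap.pi_apply, map_sum, Finset.sum_eq_single i]
  · rw [← phi_comp, pr_inc_same, phi_id]
  · intro j _ hj
    rw [← phi_comp, pr_inc_ne e hj.symm, map_zero, LinearMap.zero_apply]
  · simp

theorem up_inj : Injective (up e Z) := LeftInverse.injective (down_up e Z)

theorem down_inj : Injective (down e Z) := LeftInverse.injective (up_down e Z)

include e in
theorem lifts_of_dec {Y1 Y0 : FM k Λ} {f : Y1.T →ₗ[Λ] Y0.T} (h : ∀ i, Lifts (X i) f) :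
    Lifts Y f := fun g => by
  choose s hs using fun i => h i (g ∘ₗ inc e i)
  refine ⟨∑ i, s i ∘ₗ pr e i, ?_⟩
  rw [← g.comp_id, ← sum_inc_pr e]
  ext y
  simp only [LinearMap.comp_apply, LinearMap.sum_apply, map_sum]
  exact Finset.sum_congr rfl fun i _ => LinearMap.congr_fun (hs i) _

end Dec

theorem InAdd.lifts {G Y Y1 Y0 : FM k Λ} (hY : InAdd G Y) {f : Y1.T →ₗ[Λ] Y0.T} (h : Lifts G f) :
    Lifts Y f := fun g => by
  obtain ⟨n, ι, p, hp⟩ := hY
  obtain ⟨s, hs⟩ := lifts_of_dec (Y := FM.pi fun _ : Fin n => G) (X := fun _ : Fin n => G)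
    (LinearEquiv.refl Λ _) (fun _ => h) (g ∘ₗ p)
  exact ⟨s ∘ₗ ι, by rw [← LinearMap.comp_assoc, hs, LinearMap.comp_assoc, hp, g.comp_id]⟩

variable {ι : Type} [Fintype ι]

/-- `Y` is the direct sum of `a p` copies of `G p`. -/
def Cls (G : ι → FM k Λ) (Y : FM k Λ) (a : ι → ℕ) : Prop :=
  ∃ (I : Type) (_ : Fintype I) (c : I → ι), Nonempty (Y.T ≃ₗ[Λ] ∀ i, (G (c i)).T) ∧
    ∀ F : ι → ℕ, ∑ i, F (c i) = ∑ p, a p * F p

theorem exists_cls (G : ι → FM k Λ) (a : ι → ℕ) : ∃ Y, Cls G Y a :=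
  ⟨FM.pi fun i : Σ p, Fin (a p) => G i.1, _, inferInstance, Sigma.fst, ⟨LinearEquiv.refl _ _⟩,
    fun F => by simp [Fintype.sum_sigma]⟩

theorem cls_of_equiv {G : ι → FM k Λ} {Y : FM k Λ} {I : Type} [Fintype I] {c : I → ι}
    (e : Y.T ≃ₗ[Λ] ∀ i, (G (c i)).T) : ∃ a, Cls G Y a := by
  classical
  refine ⟨fun p => (Finset.univ.filter fun i => c i = p).card, I, inferInstance, c, ⟨e⟩, fun F => ?_⟩
  rw [← Finset.sum_fiberwise_of_maps_to (s := Finset.univ) (t := Finset.univ) (g := c)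
    (fun _ _ => Finset.mem_univ _)]
  refine Finset.sum_congr rfl fun p _ => ?_
  rw [Finset.sum_congr rfl (g := fun _ => F p) fun i hi => by rw [(Finset.mem_filter.1 hi).2]]
  simp

theorem Cls.pow {G : ι → FM k Λ} {Y : FM k Λ} {a : ι → ℕ} (h : Cls G Y a) (l : ℕ) :
    Cls G (FM.pi fun _ : Fin l => Y) (l • a) := by
  obtain ⟨I, _, c, ⟨e⟩, hc⟩ := h
  refine ⟨Σ _ : Fin l, I, inferInstance, fun i => c i.2, ⟨(LinearEquiv.piCongrRight fun _ => e).trans
    (LinearEquiv.piCurry Λ fun (_ : Fin l) (i : I) => (G (c i)).T).symm⟩, fun F => ?_⟩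
  simp [Fintype.sum_sigma, hc, Finset.mul_sum, mul_assoc]

theorem Cls.dim {G : ι → FM k Λ} {Y : FM k Λ} {a : ι → ℕ} (h : Cls G Y a) :
    Y.dim = ∑ p, a p * (G p).dim := by
  obtain ⟨I, _, c, ⟨e⟩, hc⟩ := h
  rw [← hc fun p => (G p).dim, ← Module.finrank_pi_fintype]
  exact (e.restrictScalars k).finrank_eq

theorem Cls.hd_left {G : ι → FM k Λ} {Y : FM k Λ} {a : ι → ℕ} (h : Cls G Y a) (N : FM k Λ) :
    hd Y N = ∑ p, a p * hd (G p) N := by
  classical
  obtain ⟨I, _, c, ⟨e⟩, hc⟩ := h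
  rw [← hc fun p => hd (G p) N, ← hd_congr_left (P' := FM.pi fun i => G (c i)) e]
  unfold hd
  rw [← Module.finrank_pi_fintype]
  exact (LinearMap.lsum Λ (fun i => (G (c i)).T) k).finrank_eq.symm

theorem Cls.hd_right {G : ι → FM k Λ} {Y : FM k Λ} {a : ι → ℕ} (h : Cls G Y a) (N : FM k Λ) :
    hd N Y = ∑ p, a p * hd N (G p) := by
  obtain ⟨I, _, c, ⟨e⟩, hc⟩ := h
  rw [← hc fun p => hd N (G p), hd_congr N (N := FM.pi fun i => G (c i)) e]
  unfold hd
  rw [← Module.finrank_pi_fintype]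
  exact (LinearEquiv.linearMapPi k).finrank_eq.symm

theorem Cls.lifts {G : ι → FM k Λ} {Y : FM k Λ} {a : ι → ℕ} (h : Cls G Y a) {Y1 Y0 : FM k Λ}
    {f : Y1.T →ₗ[Λ] Y0.T} (hf : ∀ p, Lifts (G p) f) : Lifts Y f := by
  obtain ⟨I, _, c, ⟨e⟩, -⟩ := h
  exact lifts_of_dec (X := fun i => G (c i)) e fun i => hf (c i)

/-- Dimension vectors of compatible pairs of subspace families. -/
def Tst (Z : FM k Λ) (G G' : ι → FM k Λ) : Set ((ι → ℕ) × (ι → ℕ)) :=
  {t | ∃ (U : ∀ p, Submodule k (Phi Z (G p))) (W : ∀ p, Submodule k (Phi Z (G' p))),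
    (∀ p q (g : (G p).T →ₗ[Λ] (G' q).T), ∀ u ∈ U p, phi Z g u ∈ W q) ∧
      t = (fun p => finrank k (U p), fun p => finrank k (W p))}

variable [FiniteDimensional k Λ]

theorem tst_finite (Z : FM k Λ) (G G' : ι → FM k Λ) : (Tst Z G G').Finite := by
  refine ((Set.Finite.pi' fun p => Set.finite_Iic (finrank k (Phi Z (G p)))).prod
    (Set.Finite.pi' fun p => Set.finite_Iic (finrank k (Phi Z (G' p))))).subset ?_
  rintro _ ⟨U, W, -, rfl⟩
  exact ⟨fun p => Submodule.finrank_le _, fun p => Submodule.finrank_le _⟩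

theorem mon_of_good {Z : FM k Λ} {G G' : ι → FM k Λ} {Y1 Y0 : FM k Λ} {a b : ι → ℕ}
    (h1 : Cls G Y1 a) (h0 : Cls G' Y0 b) {f : Y1.T →ₗ[Λ] Y0.T} (hf : Good Z f) :
    ∀ t ∈ Tst Z G G', ∑ i, a i * t.1 i ≤ ∑ i, b i * t.2 i := by
  rintro _ ⟨U, W, hUW, rfl⟩
  obtain ⟨I, _, c, ⟨e1⟩, hc⟩ := h1
  obtain ⟨J, _, d, ⟨e0⟩, hd⟩ := h0
  rw [← hc, ← hd]
  dsimp only
  refine (finrank_pi_sub (A := fun i => Phi Z (G (c i))) fun i => U (c i)).ge.trans
    (le_trans ?_ (finrank_pi_sub (A := fun j => Phi Z (G' (d j))) fun j => W (d j)).le)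
  refine finrank_le_of_maps (down (X := fun j => G' (d j)) e0 Z ∘ₗ phi Z f ∘ₗ
    up (X := fun i => G (c i)) e1 Z)
    ((down_inj _ Z).comp (((good_iff Z f).1 hf).comp (up_inj _ Z))) _ _ fun u hu j _ => ?_
  simp only [LinearMap.comp_apply, up_apply, map_sum, down, LinearMap.pi_apply, ← phi_comp]
  exact Submodule.sum_mem _ fun i _ => hUW _ _ _ _ (hu i trivial)

theorem good_of_mon [Infinite k] {Z : FM k Λ} {G G' : ι → FM k Λ} {Y1 Y0 : FM k Λ} {a b : ι → ℕ}
    (h1 : Cls G Y1 a) (h0 : Cls G' Y0 b)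
    (h : ∀ t ∈ Tst Z G G', ∑ i, a i * t.1 i ≤ ∑ i, b i * t.2 i) :
    ∃ l : ℕ, 0 < l ∧ ∃ f : (FM.pi fun _ : Fin l => Y1).T →ₗ[Λ] (FM.pi fun _ : Fin l => Y0).T,
      Good Z f := by
  obtain ⟨I, _, c, ⟨e1⟩, hc⟩ := h1
  obtain ⟨J, _, d, ⟨e0⟩, hd⟩ := h0
  obtain ⟨l, hl, F, hF⟩ := nc0 (phi Z (Y := Y1) (Y' := Y0)) fun U W hUW => by
    let U' : ∀ p, Submodule k (Phi Z (G p)) := fun p => ⨆ g : Y1.T →ₗ[Λ] (G p).T, U.map (phi Z g)
    let W' : ∀ p, Submodule k (Phi Z (G' p)) := fun p =>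
      ⨅ g : (G' p).T →ₗ[Λ] Y0.T, W.comap (phi Z g)
    have key := h _ ⟨U', W', fun p q g => ?_, rfl⟩
    · rw [← hc, ← hd] at key
      dsimp only at key
      replace key := (finrank_pi_sub (A := fun i => Phi Z (G (c i))) fun i => U' (c i)).le.trans
        (key.trans (finrank_pi_sub (A := fun j => Phi Z (G' (d j))) fun j => W' (d j)).ge)
      refine le_trans (finrank_le_of_maps (down (X := fun i => G (c i)) e1 Z) (down_inj _ Z) _
        (Submodule.pi Set.univ fun i => U' (c i)) fun u hu i _ => ?_)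
        (key.trans (finrank_le_of_maps (up (X := fun j => G' (d j)) e0 Z)
          (up_inj _ Z) _ _ fun w hw => ?_))
      · exact Submodule.mem_iSup_of_mem _ (Submodule.mem_map_of_mem hu)
      · rw [up_apply]
        exact Submodule.sum_mem _ fun j _ => (Submodule.mem_iInf _).1 (hw j trivial) _
    · change U' p ≤ (W' q).comap (phi Z g)
      refine iSup_le fun g1 => ?_
      rintro _ ⟨u, hu, rfl⟩
      refine (Submodule.mem_iInf _).2 fun g0 => ?_
      rw [Submodule.mem_comap, ← phi_comp, ← phi_comp]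
      exact hUW _ u hu
  let E1 : (FM.pi fun _ : Fin l => Y1).T ≃ₗ[Λ] ∀ _ : Fin l, Y1.T := LinearEquiv.refl _ _
  let E0 : (FM.pi fun _ : Fin l => Y0).T ≃ₗ[Λ] ∀ _ : Fin l, Y0.T := LinearEquiv.refl _ _
  refine ⟨l, hl, LinearMap.pi fun r => ∑ s, F r s ∘ₗ pr (X := fun _ => Y1) E1 s,
    (good_iff Z _).2 ((injective_iff_map_eq_zero _).2 fun x hx => ?_)⟩
  refine down_inj (X := fun _ => Y1) E1 Z ((hF _ fun r => ?_).trans (map_zero _).symm)
  have := congrArg (phi Z (pr (X := fun _ => Y0) E0 r)) hx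
  rw [← phi_comp, map_zero] at this
  rw [← this]
  change _ = phi Z (∑ s, F r s ∘ₗ pr (X := fun _ => Y1) E1 s) x
  simp only [map_sum, LinearMap.sum_apply, down, LinearMap.pi_apply]
  exact Finset.sum_congr rfl fun s _ => (phi_comp _ _ _ _).symm

end Pool.Agent.Lib.MP_146384_al
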