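import Mathlib

set_option autoImplicit false

namespace Pool.Agent.Lib.MP_146384_al

open Module Finset

/-- A matrix over a field has `rank` many independent columns. -/
theorem exists_indep_cols {F m n : Type} [Field F] [Fintype n] (M : Matrix m n F) (r : ℕ)
    (hr : M.rank = r) : ∃ g : Fin r → n, LinearIndependent F (fun i => M.col (g i)) := by
  classical
  obtain ⟨κ, a, ha, hsp, hli⟩ := exists_linearIndependent' F M.col
  have : Finite κ := Finite.of_injective a ha
  let _ : Fintype κ := Fintype.ofFinite κ
  have hc : Fintype.card κ = r := by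
    rw [← finrank_span_eq_card hli, hsp, ← Matrix.rank_eq_finrank_span_cols, hr]
  let e : Fin r ≃ κ := (Fintype.equivFinOfCardEq hc).symm
  exact ⟨fun i => a (e i), hli.comp e e.injective⟩

/-- A matrix over a field has a nonzero minor of size `rank`. -/
theorem exists_minor {F m n : Type} [Field F] [Fintype m] [Fintype n] (M : Matrix m n F) (r : ℕ)
    (hr : M.rank = r) :
    ∃ (f : Fin r → m) (g : Fin r → n), (M.submatrix f g).det ≠ 0 := by
  classical
  obtain ⟨g, hg⟩ := exists_indep_cols M r hr
  have h1 : ((M.submatrix id g).transpose).rank = r := by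
    have : LinearIndependent F ((M.submatrix id g).transpose).row := hg
    rw [this.rank_matrix, Fintype.card_fin]
  obtain ⟨f, hf⟩ := exists_indep_cols _ r h1
  refine ⟨f, g, ?_⟩
  have h2 : LinearIndependent F (M.submatrix f g).row := hf
  rw [Matrix.linearIndependent_rows_iff_isUnit, Matrix.isUnit_iff_isUnit_det] at h2
  exact h2.ne_zero

theorem le_rank_of_minor {F m n : Type} [Field F] [Fintype n] (M : Matrix m n F) (r : ℕ)
    (f : Fin r → m) (g : Fin r → n) (h : (M.submatrix f g).det ≠ 0) : r ≤ M.rank := by
  have h1 := Matrix.rank_of_det_ne_zero h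
  have h2 := Matrix.rank_submatrix_le M f g
  rw [h1, Fintype.card_fin] at h2
  exact h2

theorem semilin_det {L M : Type} [Field L] [AddCommGroup M] [Module L M] [FiniteDimensional L M]
    (σ : L →+* L) (τ : M →+ M) (hs : ∀ c x, τ (c • x) = σ c • τ x) (l : ℕ) (w : L)
    (hl : ∀ x, τ^[l] x = w • x) :
    ∃ d : L, ∏ i ∈ range l, σ^[i] d = w ^ finrank L M := by
  classical
  let b := finBasis L M
  let Q : ℕ → Matrix (Fin (finrank L M)) (Fin (finrank L M)) L :=
    fun m => Matrix.of fun i j => b.repr (τ^[m] (b j)) i
  have hQ : ∀ m, Q (m + 1) = Q 1 * (Q m).map σ := by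
    intro m
    ext h j
    have e1 : τ^[m + 1] (b j) = ∑ i, σ (Q m i j) • τ (b i) := by
      rw [Function.iterate_succ_apply']
      conv_lhs => rw [← b.sum_repr (τ^[m] (b j))]
      rw [map_sum]
      exact Finset.sum_congr rfl fun i _ => hs _ _
    simp only [Q, Matrix.of_apply, Matrix.mul_apply, Matrix.map_apply] at e1 ⊢
    rw [e1, map_sum, Finsupp.finsetSum_apply]
    refine Finset.sum_congr rfl fun i _ => ?_
    simp [mul_comm]
  have hd : ∀ m, (Q m).det = ∏ i ∈ range m, σ^[i] (Q 1).det := by
    intro m
    induction m with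
    | zero =>
      have : Q 0 = 1 := by
        ext i j
        simp [Q, Matrix.one_apply, Finsupp.single_apply, eq_comm]
      simp [this]
    | succ m ih =>
      rw [hQ, Matrix.det_mul, Finset.prod_range_succ', mul_comm]
      have : ((Q m).map σ).det = σ (Q m).det := (RingHom.map_det σ (Q m)).symm
      rw [this, ih, map_prod]
      simp only [Function.iterate_succ_apply', Function.iterate_zero_apply]
  refine ⟨(Q 1).det, ?_⟩
  rw [← hd]
  have : Q l = w • (1 : Matrix _ _ L) := by
    ext i j
    simp [Q, hl, Matrix.one_apply, Finsupp.single_apply, eq_comm]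
  rw [this, Matrix.det_smul, Matrix.det_one, mul_one, Fintype.card_fin]

theorem norm_dvd {R L : Type} [CommRing R] [IsDomain R] [Field L] [Algebra (Polynomial R) L]
    [IsFractionRing (Polynomial R) L] (ρ : R →+* R) (hρ : Function.Injective ρ) (σ : L →+* L)
    (hσ : ∀ p, σ (algebraMap (Polynomial R) L p) = algebraMap (Polynomial R) L (p.map ρ))
    (l ν : ℕ) (d : L)
    (h : ∏ i ∈ range l, σ^[i] d = algebraMap (Polynomial R) L Polynomial.X ^ ν) : l ∣ ν := by
  obtain ⟨p, q, hq, rfl⟩ := IsFractionRing.div_surjective (A := Polynomial R) d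
  have hq0 : q ≠ 0 := nonZeroDivisors.ne_zero hq
  have hinj := IsFractionRing.injective (Polynomial R) L
  let s : Polynomial R → Polynomial R := Polynomial.map ρ
  have hit : ∀ i r, σ^[i] (algebraMap (Polynomial R) L r) = algebraMap (Polynomial R) L (s^[i] r) := by
    intro i r
    induction i with
    | zero => rfl
    | succ i ih => rw [Function.iterate_succ_apply', Function.iterate_succ_apply', ih, hσ]
  have hdeg : ∀ i r, (s^[i] r).natDegree = r.natDegree := by
    intro i r
    induction i with
    | zero => rfl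
    | succ i ih =>
      rw [Function.iterate_succ_apply']
      exact (Polynomial.natDegree_map_eq_of_injective hρ _).trans ih
  have hne : ∀ i r, r ≠ 0 → s^[i] r ≠ 0 := by
    intro i r hr
    induction i with
    | zero => exact hr
    | succ i ih =>
      rw [Function.iterate_succ_apply']
      exact (Polynomial.map_ne_zero_iff hρ).2 ih
  have hdiv : ∀ i, σ^[i] (algebraMap (Polynomial R) L p / algebraMap (Polynomial R) L q) =
      algebraMap (Polynomial R) L (s^[i] p) / algebraMap (Polynomial R) L (s^[i] q) := by
    intro i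
    rw [← hit, ← hit]
    induction i with
    | zero => rfl
    | succ i ih => simp only [Function.iterate_succ_apply', ih, map_div₀]
  have hQ : ∏ i ∈ range l, s^[i] q ≠ 0 := Finset.prod_ne_zero_iff.2 fun i _ => hne i q hq0
  have hQ' : algebraMap (Polynomial R) L (∏ i ∈ range l, s^[i] q) ≠ 0 :=
    fun h0 => hQ (hinj (by rw [h0, map_zero]))
  have h2 : ∏ i ∈ range l, s^[i] p = Polynomial.X ^ ν * ∏ i ∈ range l, s^[i] q := by
    apply hinj
    simp only [hdiv, Finset.prod_div_distrib] at h
    rw [← map_prod, ← map_prod, div_eq_iff hQ'] at h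
    rw [h, map_mul, map_pow]
  have hX : (Polynomial.X ^ ν : Polynomial R) ≠ 0 := pow_ne_zero _ Polynomial.X_ne_zero
  have hP : ∏ i ∈ range l, s^[i] p ≠ 0 := by rw [h2]; exact mul_ne_zero hX hQ
  have h3 := congrArg Polynomial.natDegree h2
  rw [Polynomial.natDegree_mul hX hQ, Polynomial.natDegree_prod _ _ (Finset.prod_ne_zero_iff.1 hP),
    Polynomial.natDegree_prod _ _ (Finset.prod_ne_zero_iff.1 hQ)] at h3
  simp only [hdeg, Finset.sum_const, Finset.card_range, smul_eq_mul,
    Polynomial.natDegree_X_pow] at h3
  exact (Nat.dvd_add_left (Dvd.intro _ rfl)).1 (h3 ▸ Dvd.intro _ rfl)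

theorem zmod_val_succ {l : ℕ} [NeZero l] (i : ZMod l) :
    (i + 1).val = if i.val + 1 = l then 0 else i.val + 1 := by
  have h := ZMod.val_lt i
  rw [ZMod.val_add, ZMod.val_one_eq_one_mod, Nat.add_mod_mod]
  split_ifs with h1
  · rw [h1, Nat.mod_self]
  · exact Nat.mod_eq_of_lt (by omega)

theorem twist_key {l : ℕ} [NeZero l] {R : Type} [CommRing R] (w : R) (i s : ZMod l) :
    (if (i + 1).val < (s + 1).val then w else 1) * (if s + 1 = 0 then w else 1) =
      (if i + 1 = 0 then w else 1) * (if i.val < s.val then w else 1) := by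
  have hi := ZMod.val_lt i
  have hs := ZMod.val_lt s
  simp only [← ZMod.val_eq_zero, zmod_val_succ]
  split_ifs <;> first | contradiction | omega | simp

theorem prod_omega {l : ℕ} [NeZero l] {R : Type} [CommRing R] (w : R) (i : ZMod l) :
    ∏ j ∈ range l, (if i - (j : ZMod l) = 0 then w else 1) = w := by
  rw [Finset.prod_eq_single i.val]
  · simp
  · intro j hj hji
    rw [if_neg]
    intro h
    apply hji
    rw [sub_eq_zero] at h
    rw [h, ZMod.val_natCast, Nat.mod_eq_of_lt (Finset.mem_range.1 hj)]
  · intro h
    exact absurd (Finset.mem_range.2 (ZMod.val_lt i)) h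

/-- The kernel of a matrix commuting with a twisted shift has dimension divisible by `l`. -/
theorem dvd_rank_of_twist {l : ℕ} [NeZero l] {L P N : Type} [Field L] [Fintype P] [Fintype N]
    (σ : L →+* L) (w : L) (hw : σ w = w) (hσ : ∀ x, σ^[l] x = x)
    (hN : ∀ (ν : ℕ) (d : L), ∏ i ∈ range l, σ^[i] d = w ^ ν → l ∣ ν)
    (M : Matrix (ZMod l × P) (ZMod l × N) L)
    (hM : ∀ i s p n, M (i + 1, p) (s + 1, n) * (if s + 1 = 0 then w else 1) =
      (if i + 1 = 0 then w else 1) * σ (M (i, p) (s, n))) : l ∣ M.rank := by
  classical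
  let ω : ZMod l → L := fun i => if i = 0 then w else 1
  have hω : ∀ i, σ (ω i) = ω i := fun i => by
    simp only [ω]; split_ifs <;> simp [hw]
  let τ : (ZMod l × N → L) →+ (ZMod l × N → L) :=
    { toFun := fun y x => ω x.1 * σ (y (x.1 - 1, x.2))
      map_zero' := by ext x; simp
      map_add' := fun y z => by ext x; simp [mul_add] }
  have hτ : ∀ y x, τ y x = ω x.1 * σ (y (x.1 - 1, x.2)) := fun _ _ => rfl
  have hit : ∀ m y (x : ZMod l × N), τ^[m] y x =
      (∏ j ∈ range m, ω (x.1 - (j : ZMod l))) * σ^[m] (y (x.1 - (m : ZMod l), x.2)) := by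
    intro m
    induction m with
    | zero => intro y x; simp
    | succ m ih =>
      intro y x
      rw [Function.iterate_succ_apply', hτ, ih, Finset.prod_range_succ', map_mul, map_prod,
        Function.iterate_succ_apply']
      simp only [hω, Nat.cast_add, Nat.cast_one, Nat.cast_zero, sub_zero, sub_sub, add_comm (1 : ZMod l)]
      ring
  have hl : ∀ y, τ^[l] y = w • y := by
    intro y
    ext x
    rw [hit, prod_omega, hσ]
    simp
  have hker : ∀ y, M.mulVec y = 0 → M.mulVec (τ y) = 0 := by
    intro y hy
    ext ⟨i, p⟩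
    obtain ⟨i, rfl⟩ : ∃ i', i = i' + 1 := ⟨i - 1, by ring⟩
    have h0 : ∑ x, M (i, p) x * y x = 0 := congrFun hy (i, p)
    have h1 : (M.mulVec (τ y)) (i + 1, p) = ω (i + 1) * σ (∑ x, M (i, p) x * y x) := by
      rw [map_sum, Finset.mul_sum]
      symm
      refine Fintype.sum_equiv ((Equiv.addRight (1 : ZMod l)).prodCongr (Equiv.refl N)) _ _ ?_
      rintro ⟨s, n⟩
      have := hM i s p n
      simp only [Equiv.prodCongr_apply, Equiv.coe_addRight, Prod.map_apply, Equiv.coe_refl, id,
        hτ, add_sub_cancel_right, map_mul]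
      rw [← mul_assoc, ← mul_assoc]
      congr 1
      exact this.symm
    rw [h1, h0]; simp
  let K := LinearMap.ker M.mulVecLin
  let τK : K →+ K :=
    { toFun := fun y => ⟨τ y, hker y y.2⟩
      map_zero' := Subtype.ext (map_zero τ)
      map_add' := fun y z => Subtype.ext (map_add τ y.1 z.1) }
  have hτK : ∀ m (y : K), ((τK^[m] y : K) : ZMod l × N → L) = τ^[m] y := by
    intro m
    induction m with
    | zero => intro y; rfl
    | succ m ih => intro y; rw [Function.iterate_succ_apply', Function.iterate_succ_apply', ← ih]; rfl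
  obtain ⟨d, hd⟩ := semilin_det σ τK (fun c y => Subtype.ext (by
    ext x
    change ω x.1 * σ (c * y.1 (x.1 - 1, x.2)) = σ c * (ω x.1 * σ (y.1 (x.1 - 1, x.2)))
    rw [map_mul]; ring)) l w (fun y => Subtype.ext (by rw [hτK, hl]; rfl))
  have h1 := hN _ d hd
  have h2 := LinearMap.finrank_range_add_finrank_ker M.mulVecLin
  rw [finrank_fintype_fun_eq_card, Fintype.card_prod, ZMod.card] at h2
  have h3 : l ∣ M.rank + finrank L K := by
    change l ∣ finrank L (LinearMap.range M.mulVecLin) + finrank L (LinearMap.ker M.mulVecLin)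
    rw [h2]; exact Dvd.intro _ rfl
  exact (Nat.dvd_add_left h1).1 h3

/-- Block matrix `∑ⱼ c j ⊗ A j`. -/
def blk {k R J I P N : Type} [Field k] [CommRing R] [Algebra k R] [Fintype I]
    (A : I → Matrix P N k) (c : J → J → I → R) : Matrix (J × P) (J × N) R :=
  Matrix.of fun x y => ∑ j, c x.1 y.1 j * algebraMap k R (A j x.2 y.2)

theorem blk_map {k R S J I P N : Type} [Field k] [CommRing R] [Algebra k R] [CommRing S]
    [Algebra k S] [Fintype I] (A : I → Matrix P N k) (c : J → J → I → R) (e : R →+* S)
    (he : ∀ a, e (algebraMap k R a) = algebraMap k S a) :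
    (blk A c).map e = blk A (fun i s j => e (c i s j)) := by
  ext x y
  simp [blk, he]

/-- Regularity lemma for blow-ups of a matrix space. -/
theorem reg_matrix {k I P N : Type} [Field k] [Infinite k] [Fintype I] [Fintype P] [Fintype N]
    {l : ℕ} [NeZero l] (A : I → Matrix P N k) (c : ZMod l → ZMod l → I → k) (r : ℕ)
    (h : r * l < (blk A c).rank) :
    ∃ c' : ZMod l → ZMod l → I → k, (r + 1) * l ≤ (blk A c').rank := by
  classical
  let R := MvPolynomial (I × ZMod l × ZMod l) k
  let L := FractionRing (Polynomial R)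
  let d : ZMod l → ZMod l → I → Polynomial R := fun i s j =>
    Polynomial.C (MvPolynomial.X (j, i, s)) * (if i.val < s.val then Polynomial.X else 1)
  let ι := algebraMap (Polynomial R) L
  have hι : Function.Injective ι := IsFractionRing.injective (Polynomial R) L
  let M : Matrix (ZMod l × P) (ZMod l × N) (Polynomial R) := blk A d
  let e : (I × ZMod l × ZMod l → k) → k → Polynomial R →+* k := fun y t =>
    Polynomial.eval₂RingHom (MvPolynomial.eval y) t
  have he : ∀ y t a, e y t (algebraMap k (Polynomial R) a) = algebraMap k k a := by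
    intro y t a
    simp [e, R, Polynomial.algebraMap_apply]
  -- going up
  have h1 : (blk A c).rank ≤ (M.map ι).rank := by
    obtain ⟨f, g, hfg⟩ := exists_minor (blk A c) _ rfl
    refine le_rank_of_minor _ _ f g ?_
    have hc : blk A c = M.map (e (fun x => c x.2.1 x.2.2 x.1) 1) := by
      rw [blk_map A d _ (he _ _)]
      congr 1
      funext i s j
      simp only [e, d, Polynomial.coe_eval₂RingHom, Polynomial.eval₂_mul, Polynomial.eval₂_C]
      split_ifs <;> simp [R]
    rw [Matrix.submatrix_map, ← RingHom.mapMatrix_apply, ← RingHom.map_det]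
    intro h0
    apply hfg
    have h0' : (M.submatrix f g).det = 0 := hι (by rw [h0, map_zero])
    have : (blk A c).submatrix f g = (M.submatrix f g).map (e (fun x => c x.2.1 x.2.2 x.1) 1) := by
      ext a b
      exact congrFun (congrFun hc _) _
    rw [this, ← RingHom.mapMatrix_apply, ← RingHom.map_det, h0', map_zero]
  -- going down
  have h2 : ∃ c' : ZMod l → ZMod l → I → k, (M.map ι).rank ≤ (blk A c').rank := by
    obtain ⟨f, g, hfg⟩ := exists_minor (M.map ι) _ rfl
    have hg0 : (M.submatrix f g).det ≠ 0 := by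
      intro h0
      apply hfg
      rw [Matrix.submatrix_map, ← RingHom.mapMatrix_apply, ← RingHom.map_det, h0, map_zero]
    obtain ⟨y, hy⟩ : ∃ y, MvPolynomial.eval y (M.submatrix f g).det.leadingCoeff ≠ 0 := by
      by_contra hcon
      push Not at hcon
      exact Polynomial.leadingCoeff_ne_zero.2 hg0 (MvPolynomial.funext (by simpa using hcon))
    have hg1 : (M.submatrix f g).det.map (MvPolynomial.eval y) ≠ 0 := by
      intro h0
      apply hy
      have := congrArg (fun q => Polynomial.coeff q (M.submatrix f g).det.natDegree) h0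
      simpa using this
    obtain ⟨t, ht⟩ : ∃ t, Polynomial.eval t ((M.submatrix f g).det.map (MvPolynomial.eval y)) ≠ 0 := by
      by_contra hcon
      push Not at hcon
      exact hg1 (Polynomial.funext (by simpa using hcon))
    refine ⟨fun i s j => e y t (d i s j), le_rank_of_minor _ _ f g ?_⟩
    rw [← blk_map A d _ (he y t), Matrix.submatrix_map, ← RingHom.mapMatrix_apply,
      ← RingHom.map_det]
    rwa [Polynomial.eval_map] at ht
  -- divisibility
  have h3 : l ∣ (M.map ι).rank := by
    let sh : ℕ → I × ZMod l × ZMod l → I × ZMod l × ZMod l :=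
      fun m x => (x.1, x.2.1 + (m : ZMod l), x.2.2 + (m : ZMod l))
    have hsh : Function.Injective (sh 1) := by
      rintro ⟨a, b, c⟩ ⟨a', b', c'⟩ h
      simpa [sh] using h
    let ρ : ℕ → R →+* R := fun m => (MvPolynomial.rename (sh m) : R →ₐ[k] R).toRingHom
    have hρ : Function.Injective (ρ 1) := MvPolynomial.rename_injective _ hsh
    have hinj : Function.Injective (ι.comp (Polynomial.mapRingHom (ρ 1))) :=
      hι.comp (Polynomial.map_injective _ hρ)
    let σ : L →+* L := IsFractionRing.lift hinj
    have hσ : ∀ p, σ (ι p) = ι (p.map (ρ 1)) := fun p => IsFractionRing.lift_algebraMap hinj p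
    have hρs : ∀ m, (ρ 1).comp (ρ m) = ρ (m + 1) := by
      intro m
      ext x
      · simp [ρ, R]
      · simp [ρ, R, sh, add_assoc]
    have hit : ∀ m p, σ^[m] (ι p) = ι (p.map (ρ m)) := by
      intro m p
      induction m with
      | zero =>
        have : ρ 0 = RingHom.id R := by
          ext x <;> simp [ρ, R, sh]
        rw [this, Polynomial.map_id]; rfl
      | succ m ih => rw [Function.iterate_succ_apply', ih, hσ, Polynomial.map_map, hρs]
    have hl : ∀ p, σ^[l] (ι p) = ι p := by
      intro p
      have : ρ l = RingHom.id R := by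
        ext x <;> simp [ρ, R, sh]
      rw [hit, this, Polynomial.map_id]
    refine dvd_rank_of_twist σ (ι Polynomial.X) (by rw [hσ, Polynomial.map_X]) ?_
      (fun ν d hd => norm_dvd (ρ 1) hρ σ hσ l ν d hd) _ ?_
    · intro x
      obtain ⟨p, q, -, rfl⟩ := IsFractionRing.div_surjective (A := Polynomial R) x
      have : ∀ m (a b : L), σ^[m] (a / b) = σ^[m] a / σ^[m] b := by
        intro m a b
        induction m with
        | zero => rfl
        | succ m ih => simp only [Function.iterate_succ_apply', ih, map_div₀]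
      rw [this, hl, hl]
    · intro i s p n
      have e1 : ∀ t : ZMod l, (if t = 0 then ι Polynomial.X else 1) =
          ι (if t = 0 then Polynomial.X else 1) := fun t => by split_ifs <;> simp
      rw [e1, e1, Matrix.map_apply, Matrix.map_apply, hσ, ← map_mul, ← map_mul]
      congr 1
      simp only [M, blk, Matrix.of_apply, Polynomial.map_sum, Finset.sum_mul, Finset.mul_sum]
      refine Finset.sum_congr rfl fun j _ => ?_
      have e2 : Polynomial.map (ρ 1) (algebraMap k (Polynomial R) (A j p n)) =
          algebraMap k (Polynomial R) (A j p n) := by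
        simp [ρ, R, Polynomial.algebraMap_apply]
      have e3 : Polynomial.map (ρ 1) (d i s j) =
          Polynomial.C (MvPolynomial.X (j, i + 1, s + 1)) *
            (if i.val < s.val then Polynomial.X else 1) := by
        simp only [d, Polynomial.map_mul, Polynomial.map_C]
        congr 1
        · simp [ρ, R, sh]
        · split_ifs <;> simp
      rw [Polynomial.map_mul, e2, e3]
      have e4 := twist_key (Polynomial.X : Polynomial R) i s
      simp only [d]
      linear_combination (Polynomial.C (MvPolynomial.X (j, i + 1, s + 1)) *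
        algebraMap k (Polynomial R) (A j p n)) * e4
  obtain ⟨c', hc'⟩ := h2
  refine ⟨c', le_trans ?_ hc'⟩
  obtain ⟨u, hu⟩ := h3
  have h4 : r * l < l * u := hu ▸ lt_of_lt_of_le h h1
  rw [hu, mul_comm l u]
  exact Nat.mul_le_mul_right l (Nat.lt_of_mul_lt_mul_right (a := l) (by rwa [mul_comm u l]))

end Pool.Agent.Lib.MP_146384_al
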