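import Mathlib
import Pool.Agent.Lib.MP_146384_al.LinAlg
import Pool.Agent.Lib.MP_146384_al.R.NCReg

set_option autoImplicit false

namespace Pool.Agent.Lib.MP_146384_al

open Module Filter

section
variable {k H X Y : Type} [Field k] [AddCommGroup H] [Module k H] [AddCommGroup X] [Module k X]
  [AddCommGroup Y] [Module k Y]

/-- The blow-up of a matrix space along a finite index type. -/
def blowL (φ : H →ₗ[k] X →ₗ[k] Y) (J : Type) [Fintype J] :
    (J → J → H) →ₗ[k] (J → X) →ₗ[k] (J → Y) :=
  LinearMap.mk₂ k (fun F v r => ∑ s, φ (F r s) (v s))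
    (fun F G v => by ext r; simp [Finset.sum_add_distrib])
    (fun c F v => by ext r; simp [Finset.smul_sum])
    (fun F v u => by ext r; simp [Finset.sum_add_distrib])
    (fun c F v => by ext r; simp [Finset.smul_sum])

theorem blowL_apply (φ : H →ₗ[k] X →ₗ[k] Y) (J : Type) [Fintype J] (F : J → J → H) (v : J → X)
    (r : J) : blowL φ J F v r = ∑ s, φ (F r s) (v s) := rfl

theorem finrank_pi_const (J : Type) [Fintype J] [FiniteDimensional k X] (U : Submodule k X) :
    finrank k (Submodule.pi (Set.univ : Set J) (fun _ => U)) = Fintype.card J * finrank k U := by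
  let e : (J → U) ≃ₗ[k] Submodule.pi (Set.univ : Set J) (fun _ => U) :=
    { toFun := fun v => ⟨fun j => v j, fun j _ => (v j).2⟩
      invFun := fun v j => ⟨v.1 j, v.2 j (Set.mem_univ j)⟩
      map_add' := fun _ _ => rfl
      map_smul' := fun _ _ => rfl
      left_inv := fun _ => rfl
      right_inv := fun _ => rfl }
  rw [← e.finrank_eq, finrank_pi_fintype, Finset.sum_const, Finset.card_univ, smul_eq_mul]

theorem rank_congr {X' Y' : Type} [AddCommGroup X'] [Module k X'] [AddCommGroup Y'] [Module k Y']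
    (f : X →ₗ[k] Y) (g : X' →ₗ[k] Y') (e1 : X ≃ₗ[k] X') (e2 : Y ≃ₗ[k] Y')
    (h : ∀ x, g (e1 x) = e2 (f x)) :
    finrank k (LinearMap.range g) = finrank k (LinearMap.range f) := by
  have : LinearMap.range g = (LinearMap.range f).map (e2 : Y →ₗ[k] Y') := by
    ext y
    constructor
    · rintro ⟨x, rfl⟩
      obtain ⟨x, rfl⟩ := e1.surjective x
      exact ⟨f x, ⟨x, rfl⟩, (h x).symm⟩
    · rintro ⟨_, ⟨x, rfl⟩, rfl⟩
      exact ⟨e1 x, h x⟩
  rw [this, LinearEquiv.finrank_map_eq]

theorem noShrink_blow [FiniteDimensional k X] [FiniteDimensional k Y] (φ : H →ₗ[k] X →ₗ[k] Y)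
    (hsh : ∀ (U : Submodule k X) (W : Submodule k Y), (∀ g, ∀ u ∈ U, φ g u ∈ W) →
      finrank k U ≤ finrank k W) (J : Type) [Fintype J]
    (U : Submodule k (J → X)) (W : Submodule k (J → Y))
    (h : ∀ g, ∀ u ∈ U, blowL φ J g u ∈ W) : finrank k U ≤ finrank k W := by
  classical
  let U0 : Submodule k X := ⨆ i : J, U.map (LinearMap.proj i)
  let W0 : Submodule k Y := ⨅ j : J, W.comap (LinearMap.single k (fun _ : J => Y) j)
  have h0 : finrank k U0 ≤ finrank k W0 := by
    refine hsh U0 W0 fun g u hu => ?_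
    have : U0 ≤ W0.comap (φ g) := by
      refine iSup_le fun i => ?_
      rintro _ ⟨v, hv, rfl⟩
      simp only [W0, Submodule.mem_comap, Submodule.mem_iInf]
      intro j
      have h1 := h (Pi.single j (Pi.single i g)) v hv
      convert h1 using 1
      ext r
      rw [blowL_apply]
      by_cases hr : r = j
      · subst hr
        rw [Finset.sum_eq_single i]
        · simp
        · intro s _ hs; simp [hs]
        · simp
      · simp [hr]
    exact this hu
  have h1 : U ≤ Submodule.pi Set.univ (fun _ : J => U0) := fun v hv i _ =>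
    Submodule.mem_iSup_of_mem i ⟨v, hv, rfl⟩
  have h2 : Submodule.pi Set.univ (fun _ : J => W0) ≤ W := by
    intro w hw
    rw [← Finset.univ_sum_single w]
    refine Submodule.sum_mem _ fun j _ => ?_
    have : w j ∈ W0 := hw j (Set.mem_univ j)
    exact (Submodule.mem_iInf _).1 this j
  calc finrank k U ≤ _ := Submodule.finrank_mono h1
    _ = _ := finrank_pi_const J U0
    _ ≤ _ := Nat.mul_le_mul_left _ h0
    _ = _ := (finrank_pi_const J W0).symm
    _ ≤ _ := Submodule.finrank_mono h2

theorem wong_chain [FiniteDimensional k X] (φ : H →ₗ[k] X →ₗ[k] Y)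
    (hsh : ∀ (U : Submodule k X) (W : Submodule k Y), (∀ g, ∀ u ∈ U, φ g u ∈ W) →
      finrank k U ≤ finrank k W) (T : X →ₗ[k] Y) (hT : LinearMap.ker T ≠ ⊥) :
    ∃ (s : ℕ) (v : ℕ → X) (B : ℕ → H), T (v 0) = 0 ∧ (∀ i < s, T (v (i + 1)) = φ (B i) (v i)) ∧
      φ (B s) (v s) ∉ LinearMap.range T := by
  classical
  by_contra hcon
  push Not at hcon
  let R : Set X := {u | ∃ (s : ℕ) (v : ℕ → X) (B : ℕ → H), T (v 0) = 0 ∧
    (∀ i < s, T (v (i + 1)) = φ (B i) (v i)) ∧ v s = u}
  let U := Submodule.span k R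
  have hstep : ∀ g, ∀ u ∈ R, φ g u ∈ U.map T := by
    rintro g _ ⟨s, v, B, h0, h1, rfl⟩
    have hB : ∀ i < s, T (v (i + 1)) = φ (Function.update B s g i) (v i) := fun i hi => by
      rw [Function.update_of_ne hi.ne]; exact h1 i hi
    obtain ⟨u', hu'⟩ := hcon s v (Function.update B s g) h0 hB
    rw [Function.update_self] at hu'
    refine ⟨u', Submodule.subset_span ⟨s + 1, Function.update v (s + 1) u',
      Function.update B s g, ?_, ?_, by simp⟩, hu'⟩
    · rw [Function.update_of_ne (by omega)]; exact h0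
    · intro i hi
      rcases Nat.lt_succ_iff_lt_or_eq.1 hi with hi | rfl
      · rw [Function.update_of_ne (a := i + 1) (by omega),
          Function.update_of_ne (a := i) (a' := s + 1) (by omega)]
        exact hB i hi
      · rw [Function.update_self, Function.update_self, Function.update_of_ne (by omega)]
        exact hu'
  have h1 := hsh U (U.map T) fun g u hu => by
    have : U ≤ (U.map T).comap (φ g) := Submodule.span_le.2 fun u hu => hstep g u hu
    exact this hu
  have h2 := LinearMap.finrank_range_add_finrank_ker (T.domRestrict U)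
  rw [LinearMap.range_domRestrict] at h2
  obtain ⟨x, hx, hx0⟩ := Submodule.exists_mem_ne_zero_of_ne_bot hT
  have hxU : x ∈ U := Submodule.subset_span ⟨0, fun _ => x, fun _ => 0, hx, by simp, rfl⟩
  have h3 : LinearMap.ker (T.domRestrict U) ≠ ⊥ := by
    intro h
    have : (⟨x, hxU⟩ : U) ∈ LinearMap.ker (T.domRestrict U) := hx
    rw [h, Submodule.mem_bot] at this
    exact hx0 (congrArg Subtype.val this)
  have h4 : finrank k (LinearMap.ker (T.domRestrict U)) ≠ 0 := fun h =>
    h3 (Submodule.finrank_eq_zero.1 h)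
  omega

theorem wong [Infinite k] [FiniteDimensional k X] [FiniteDimensional k Y] (φ : H →ₗ[k] X →ₗ[k] Y)
    (hsh : ∀ (U : Submodule k X) (W : Submodule k Y), (∀ g, ∀ u ∈ U, φ g u ∈ W) →
      finrank k U ≤ finrank k W) (g : H) (hT : LinearMap.ker (φ g) ≠ ⊥) :
    ∃ (s : ℕ) (F : Fin (s + 1) → Fin (s + 1) → H),
      (s + 1) * finrank k (LinearMap.range (φ g)) <
        finrank k (LinearMap.range (blowL φ (Fin (s + 1)) F)) := by
  classical
  obtain ⟨s, v, B, h0, h1, h2⟩ := wong_chain φ hsh (φ g) hT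
  let F0 : Fin (s + 1) → Fin (s + 1) → H := fun i j => if i = j then g else 0
  let F1 : Fin (s + 1) → Fin (s + 1) → H := fun i j => if i.val = j.val + 1 then -B j.val else 0
  let F2 : Fin (s + 1) → Fin (s + 1) → H := fun i j => if i = 0 ∧ j = Fin.last s then B s else 0
  have e0 : ∀ x r, blowL φ _ F0 x r = φ g (x r) := by
    intro x r
    rw [blowL_apply, Finset.sum_eq_single r]
    · simp [F0]
    · intro j _ hj; simp [F0, hj.symm]
    · simp
  have e1 : ∀ x, blowL φ _ F1 x 0 = 0 := by
    intro x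
    rw [blowL_apply]
    exact Finset.sum_eq_zero fun j _ => by simp [F1]
  have e1' : ∀ x (r : Fin s), blowL φ _ F1 x r.succ = -φ (B r.val) (x r.castSucc) := by
    intro x r
    rw [blowL_apply, Finset.sum_eq_single r.castSucc]
    · simp [F1]
    · intro j _ hj
      have : ¬ (r.val = j.val) := fun h => hj (Fin.ext (by simp [h]))
      simp [F1, this]
    · simp
  have e2 : ∀ x, blowL φ _ F2 x 0 = φ (B s) (x (Fin.last s)) := by
    intro x
    rw [blowL_apply, Finset.sum_eq_single (Fin.last s)]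
    · simp [F2]
    · intro j _ hj; simp [F2, hj]
    · simp
  have e2' : ∀ x (r : Fin s), blowL φ _ F2 x r.succ = 0 := by
    intro x r
    rw [blowL_apply]
    exact Finset.sum_eq_zero fun j _ => by simp [F2, Fin.succ_ne_zero]
  have hr0 : finrank k (LinearMap.range (blowL φ _ F0)) =
      (s + 1) * finrank k (LinearMap.range (φ g)) := by
    have : LinearMap.range (blowL φ _ F0) =
        Submodule.pi Set.univ (fun _ => LinearMap.range (φ g)) := by
      ext y
      constructor
      · rintro ⟨x, rfl⟩ r _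
        exact ⟨x r, (e0 x r).symm⟩
      · intro hy
        choose x hx using fun r => hy r (Set.mem_univ r)
        exact ⟨x, funext fun r => (e0 x r).trans (hx r)⟩
    rw [this, finrank_pi_const, Fintype.card_fin]
  obtain ⟨t, ht, ht0⟩ := ((eventually_rank_ge (blowL φ _ F0) (blowL φ _ F1)).and
    (eventually_cofinite_ne (0 : k))).exists
  let x : Fin (s + 1) → X := fun i => t ^ i.val • v i.val
  have hx : (blowL φ _ F0 + t • blowL φ _ F1) x = 0 := by
    ext r
    simp only [LinearMap.add_apply, LinearMap.smul_apply, Pi.add_apply, Pi.smul_apply,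
      Pi.zero_apply, e0]
    refine Fin.cases ?_ (fun r => ?_) r
    · rw [e1]; simp [x, h0]
    · rw [e1']
      simp only [x, Fin.val_succ, Fin.val_castSucc, map_smul, h1 r.val r.2, smul_neg, smul_smul,
        pow_succ, mul_comm t]
      exact add_neg_cancel _
  have hx2 : blowL φ _ F2 x ∉ LinearMap.range (blowL φ _ F0 + t • blowL φ _ F1) := by
    rintro ⟨z, hz⟩
    apply h2
    have h3 := congrFun hz 0
    simp only [LinearMap.add_apply, LinearMap.smul_apply, Pi.add_apply, Pi.smul_apply, e0, e1, e2,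
      smul_zero, add_zero, x, Fin.val_last, map_smul] at h3
    refine ⟨(t ^ s)⁻¹ • z 0, ?_⟩
    rw [map_smul, h3, smul_smul, inv_mul_cancel₀ (pow_ne_zero _ ht0), one_smul]
  obtain ⟨t', ht'⟩ := (eventually_rank_gt _ (blowL φ _ F2) x hx hx2).exists
  refine ⟨s, F0 + t • F1 + t' • F2, ?_⟩
  rw [map_add, map_add, map_smul, map_smul]
  omega

theorem blow_blow (φ : H →ₗ[k] X →ₗ[k] Y) (I J J' : Type) [Fintype I] [Fintype J] [Fintype J']
    (e : J' ≃ I × J) (F : I → I → J → J → H) :
    finrank k (LinearMap.range (blowL φ J' (fun a b => F (e a).1 (e b).1 (e a).2 (e b).2))) =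
      finrank k (LinearMap.range (blowL (blowL φ J) I F)) := by
  symm
  refine rank_congr _ _
    ((LinearEquiv.funCongrLeft k X e.symm).trans (LinearEquiv.curry k X I J))
    ((LinearEquiv.funCongrLeft k Y e.symm).trans (LinearEquiv.curry k Y I J)) fun x => ?_
  ext i j
  change (∑ i', blowL φ J (F i i') (fun j' => x (e.symm (i', j')))) j =
    blowL φ J' (fun a b => F (e a).1 (e b).1 (e a).2 (e b).2) x (e.symm (i, j))
  rw [Finset.sum_apply, blowL_apply, ← e.symm.sum_comp, Fintype.sum_prod_type]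
  simp only [blowL_apply, Equiv.apply_symm_apply]

theorem rank_blk [FiniteDimensional k H] [FiniteDimensional k X] [FiniteDimensional k Y]
    (φ : H →ₗ[k] X →ₗ[k] Y) (J : Type) [Fintype J] (F : J → J → H) :
    (blk (fun j => LinearMap.toMatrix (finBasis k X) (finBasis k Y) (φ (finBasis k H j)))
      (fun i s j => (finBasis k H).repr (F i s) j)).rank =
      finrank k (LinearMap.range (blowL φ J F)) := by
  classical
  refine rank_congr _ _
    ((LinearEquiv.piCongrRight fun _ : J => (finBasis k X).equivFun).trans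
      (LinearEquiv.curry k k J _).symm)
    ((LinearEquiv.piCongrRight fun _ : J => (finBasis k Y).equivFun).trans
      (LinearEquiv.curry k k J _).symm) fun x => ?_
  ext ⟨i, p⟩
  change ∑ y : J × Fin (finrank k X), (∑ j, (finBasis k H).repr (F i y.1) j *
    LinearMap.toMatrix (finBasis k X) (finBasis k Y) (φ (finBasis k H j)) p y.2) *
      (finBasis k X).repr (x y.1) y.2 = (finBasis k Y).repr (∑ s, φ (F i s) (x s)) p
  rw [Fintype.sum_prod_type, map_sum, Finsupp.finsetSum_apply]
  refine Finset.sum_congr rfl fun s _ => ?_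
  have h1 := congrFun (LinearMap.toMatrix_mulVec_repr (finBasis k X) (finBasis k Y) (φ (F i s))
    (x s)) p
  rw [← h1]
  refine Finset.sum_congr rfl fun n _ => ?_
  congr 1
  conv_rhs => rw [← (finBasis k H).sum_repr (F i s)]
  simp only [map_sum, map_smul, Matrix.sum_apply, Matrix.smul_apply, smul_eq_mul]

theorem reg_blow [Infinite k] [FiniteDimensional k H] [FiniteDimensional k X]
    [FiniteDimensional k Y] (φ : H →ₗ[k] X →ₗ[k] Y) (l : ℕ) [NeZero l]
    (F : ZMod l → ZMod l → H) (r : ℕ)
    (h : r * l < finrank k (LinearMap.range (blowL φ _ F))) :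
    ∃ F' : ZMod l → ZMod l → H, (r + 1) * l ≤ finrank k (LinearMap.range (blowL φ _ F')) := by
  rw [← rank_blk] at h
  obtain ⟨c', hc'⟩ := reg_matrix _ _ r h
  refine ⟨fun i s => (finBasis k H).equivFun.symm (c' i s), ?_⟩
  rw [← rank_blk]
  convert hc' using 3
  funext i s j
  exact congrFun ((finBasis k H).equivFun.apply_symm_apply (c' i s)) j

theorem nc_step [Infinite k] [FiniteDimensional k H] [FiniteDimensional k X]
    [FiniteDimensional k Y] (φ : H →ₗ[k] X →ₗ[k] Y)
    (hsh : ∀ (U : Submodule k X) (W : Submodule k Y), (∀ g, ∀ u ∈ U, φ g u ∈ W) →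
      finrank k U ≤ finrank k W) (r : ℕ) (hr : r ≤ finrank k X) :
    ∃ (l : ℕ) (F : ZMod (l + 1) → ZMod (l + 1) → H),
      r * (l + 1) ≤ finrank k (LinearMap.range (blowL φ _ F)) := by
  induction r with
  | zero => exact ⟨0, 0, by simp⟩
  | succ r ih =>
    obtain ⟨l, F, hF⟩ := ih (by omega)
    by_cases hk : LinearMap.ker (blowL φ _ F) = ⊥
    · refine ⟨l, F, ?_⟩
      have h2 := LinearMap.finrank_range_add_finrank_ker (blowL φ _ F)
      rw [hk, finrank_bot, add_zero, finrank_pi_fintype, Finset.sum_const, Finset.card_univ,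
        ZMod.card, smul_eq_mul] at h2
      rw [h2, mul_comm]
      exact Nat.mul_le_mul_left _ hr
    · obtain ⟨s, G, hG⟩ := wong (blowL φ _) (noShrink_blow φ hsh _) F hk
      obtain ⟨l', hl'⟩ : ∃ l', l' + 1 = (s + 1) * (l + 1) := ⟨s * (l + 1) + l, by ring⟩
      let e : ZMod (l' + 1) ≃ Fin (s + 1) × ZMod (l + 1) :=
        Fintype.equivOfCardEq (by simp [hl'])
      rw [← blow_blow φ _ _ _ e G] at hG
      refine ⟨l', reg_blow φ (l' + 1) _ r (lt_of_le_of_lt ?_ hG)⟩
      rw [hl', mul_left_comm]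
      exact Nat.mul_le_mul_left _ hF

end

/-- Non-commutative rank theorem: a matrix space without shrunk subspace has an injective
element in some blow-up. -/
theorem nc0 {k H X Y : Type} [Field k] [Infinite k] [AddCommGroup H] [Module k H]
    [FiniteDimensional k H] [AddCommGroup X] [Module k X] [FiniteDimensional k X]
    [AddCommGroup Y] [Module k Y] [FiniteDimensional k Y] (φ : H →ₗ[k] X →ₗ[k] Y)
    (hsh : ∀ (U : Submodule k X) (W : Submodule k Y), (∀ g, ∀ u ∈ U, φ g u ∈ W) →
      Module.finrank k U ≤ Module.finrank k W) :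
    ∃ l : ℕ, 0 < l ∧ ∃ F : Fin l → Fin l → H,
      ∀ v : Fin l → X, (∀ r, ∑ s, φ (F r s) (v s) = 0) → v = 0 := by
  obtain ⟨l, F, hF⟩ := nc_step φ hsh _ le_rfl
  have h2 := LinearMap.finrank_range_add_finrank_ker (blowL φ _ F)
  rw [finrank_pi_fintype, Finset.sum_const, Finset.card_univ, ZMod.card, smul_eq_mul,
    mul_comm] at h2
  have h3 : LinearMap.ker (blowL φ _ F) = ⊥ := Submodule.finrank_eq_zero.1 (by omega)
  refine ⟨l + 1, Nat.succ_pos l, F, fun v hv => ?_⟩
  exact LinearMap.ker_eq_bot'.1 h3 v (funext hv)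

end Pool.Agent.Lib.MP_146384_al
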