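import Pool.Agent.Lib.MP_146384_al.R.Defs
import Pool.Agent.Lib.MP_146384_al.R.NC

set_option autoImplicit false

namespace Pool.Agent.Lib.MP_146384_al

open Module Function

variable {k Λ : Type} [Field k] [Ring Λ] [Algebra k Λ]

/-- The obstruction to `Λ`-linearity. -/
def del (Z Y : FM k Λ) : (Z.T →ₗ[k] Y.T) →ₗ[k] (Λ →ₗ[k] Z.T →ₗ[k] Y.T) where
  toFun ψ := LinearMap.mk₂ k (fun a z => ψ (a • z) - a • ψ z)
    (fun a b z => by simp only [add_smul, map_add]; abel)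
    (fun c a z => by simp only [smul_assoc, map_smul, smul_sub])
    (fun a z w => by simp only [smul_add, map_add]; abel)
    (fun c a z => by rw [smul_comm a c z, ψ.map_smul, ψ.map_smul, smul_comm a c, smul_sub])
  map_add' ψ χ := by
    ext a z
    simp only [LinearMap.mk₂_apply, LinearMap.add_apply, smul_add]
    abel
  map_smul' c ψ := by
    ext a z
    simp only [LinearMap.mk₂_apply, LinearMap.smul_apply, RingHom.id_apply, smul_sub,
      smul_comm a c]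

theorem del_apply (Z Y : FM k Λ) (ψ : Z.T →ₗ[k] Y.T) (a : Λ) (z : Z.T) :
    del Z Y ψ a z = ψ (a • z) - a • ψ z := rfl

/-- Postcomposition of bilinear maps. -/
def post2 (Z : FM k Λ) {Y Y' : FM k Λ} (f : Y.T →ₗ[Λ] Y'.T) :
    (Λ →ₗ[k] Z.T →ₗ[k] Y.T) →ₗ[k] (Λ →ₗ[k] Z.T →ₗ[k] Y'.T) where
  toFun β := β.compr₂ (f.restrictScalars k)
  map_add' _ _ := by ext; simp
  map_smul' _ _ := by ext; simp

theorem post2_apply (Z : FM k Λ) {Y Y' : FM k Λ} (f : Y.T →ₗ[Λ] Y'.T)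
    (β : Λ →ₗ[k] Z.T →ₗ[k] Y.T) (a : Λ) (z : Z.T) : post2 Z f β a z = f (β a z) := rfl

theorem post2_del (Z : FM k Λ) {Y Y' : FM k Λ} (f : Y.T →ₗ[Λ] Y'.T) (ψ : Z.T →ₗ[k] Y.T) :
    post2 Z f (del Z Y ψ) = del Z Y' (f.restrictScalars k ∘ₗ ψ) := by
  ext a z
  simp [post2_apply, del_apply]

/-- The functor detecting good maps, on objects. -/
def Phi (Z Y : FM k Λ) : Type :=
  Y.T × ((Λ →ₗ[k] Z.T →ₗ[k] Y.T) ⧸ LinearMap.range (del Z Y))

instance (Z Y : FM k Λ) : AddCommGroup (Phi Z Y) :=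
  inferInstanceAs (AddCommGroup (Y.T × ((Λ →ₗ[k] Z.T →ₗ[k] Y.T) ⧸ LinearMap.range (del Z Y))))

instance (Z Y : FM k Λ) : Module k (Phi Z Y) :=
  inferInstanceAs (Module k (Y.T × ((Λ →ₗ[k] Z.T →ₗ[k] Y.T) ⧸ LinearMap.range (del Z Y))))

instance [FiniteDimensional k Λ] (Z Y : FM k Λ) : FiniteDimensional k (Phi Z Y) :=
  inferInstanceAs
    (FiniteDimensional k (Y.T × ((Λ →ₗ[k] Z.T →ₗ[k] Y.T) ⧸ LinearMap.range (del Z Y))))

/-- The functor detecting good maps, on maps. -/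
def phi (Z : FM k Λ) {Y Y' : FM k Λ} : (Y.T →ₗ[Λ] Y'.T) →ₗ[k] Phi Z Y →ₗ[k] Phi Z Y' where
  toFun f := (f.restrictScalars k).prodMap (Submodule.mapQ _ _ (post2 Z f) (by
    rintro _ ⟨ψ, rfl⟩
    exact ⟨_, (post2_del Z f ψ).symm⟩))
  map_add' f g := by
    refine LinearMap.ext ?_
    rintro ⟨y, β⟩
    obtain ⟨β, rfl⟩ := Submodule.Quotient.mk_surjective _ β
    rfl
  map_smul' c f := by
    refine LinearMap.ext ?_
    rintro ⟨y, β⟩
    obtain ⟨β, rfl⟩ := Submodule.Quotient.mk_surjective _ β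
    rfl

theorem phi_mk (Z : FM k Λ) {Y Y' : FM k Λ} (f : Y.T →ₗ[Λ] Y'.T) (y : Y.T)
    (β : Λ →ₗ[k] Z.T →ₗ[k] Y.T) :
    phi Z f (y, Submodule.Quotient.mk β) = (f y, Submodule.Quotient.mk (post2 Z f β)) := rfl

theorem phi_comp (Z : FM k Λ) {Y Y' Y'' : FM k Λ} (f : Y.T →ₗ[Λ] Y'.T) (g : Y'.T →ₗ[Λ] Y''.T)
    (x : Phi Z Y) : phi Z (g ∘ₗ f) x = phi Z g (phi Z f x) := by
  obtain ⟨y, β⟩ := x
  obtain ⟨β, rfl⟩ := Submodule.Quotient.mk_surjective _ β
  rfl

theorem phi_id (Z Y : FM k Λ) (x : Phi Z Y) : phi Z (LinearMap.id : Y.T →ₗ[Λ] Y.T) x = x := by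
  obtain ⟨y, β⟩ := x
  obtain ⟨β, rfl⟩ := Submodule.Quotient.mk_surjective _ β
  rfl

/-- A `k`-linear map killed by `del` is `Λ`-linear. -/
def ofDel {Z Y : FM k Λ} (ψ : Z.T →ₗ[k] Y.T) (h : ∀ (a : Λ) z, ψ (a • z) = a • ψ z) :
    Z.T →ₗ[Λ] Y.T where
  toFun := ψ
  map_add' := map_add ψ
  map_smul' := h

theorem exists_factor {Y1 Y0 : FM k Λ} {f : Y1.T →ₗ[Λ] Y0.T} (hf : Injective f) :
    ∃ r : Y0.T →ₗ[k] Y1.T, ∀ y ∈ LinearMap.range f, f (r y) = y := by
  obtain ⟨r, hr⟩ := (f.restrictScalars k).exists_leftInverse_of_injective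
    (LinearMap.ker_eq_bot.2 hf)
  refine ⟨r, ?_⟩
  rintro _ ⟨x, rfl⟩
  exact congrArg f (LinearMap.congr_fun hr x)

theorem good_iff (Z : FM k Λ) {Y1 Y0 : FM k Λ} (f : Y1.T →ₗ[Λ] Y0.T) :
    Good Z f ↔ Injective (phi Z f) := by
  constructor
  · rintro ⟨hf, hl⟩
    rw [injective_iff_map_eq_zero]
    rintro ⟨y, β⟩ h
    obtain ⟨β, rfl⟩ := Submodule.Quotient.mk_surjective _ β
    have h1 : f y = 0 := congrArg Prod.fst h
    obtain ⟨ψ, hψ⟩ : post2 Z f β ∈ LinearMap.range (del Z Y0) :=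
      (Submodule.Quotient.mk_eq_zero _).1 (congrArg Prod.snd h)
    have e : ∀ a z, ψ (a • z) - a • ψ z = f (β a z) := fun a z =>
      LinearMap.congr_fun (LinearMap.congr_fun hψ a) z
    obtain ⟨g, hg⟩ := hl (ofDel (Y := cok f) ((LinearMap.range f).mkQ.restrictScalars k ∘ₗ ψ)
      fun a z => (Submodule.Quotient.eq _).2 ⟨β a z, (e a z).symm⟩)
    obtain ⟨r, hr⟩ := exists_factor (k := k) hf
    have e2 : ∀ z, f (r (ψ z - g z)) = ψ z - g z := fun z =>
      hr _ ((Submodule.Quotient.eq _).1 (LinearMap.congr_fun hg z).symm)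
    refine Prod.ext (hf (h1.trans (map_zero f).symm)) ((Submodule.Quotient.mk_eq_zero _).2
      ⟨r ∘ₗ (ψ - g.restrictScalars k), ?_⟩)
    ext a z
    apply hf
    rw [← e, del_apply, map_sub, f.map_smul]
    change f (r (ψ (a • z) - g (a • z))) - a • f (r (ψ z - g z)) = _
    rw [e2, e2, g.map_smul, smul_sub]
    abel
  · intro h
    have hf : Injective f := fun x y hxy => by
      have := @h (x, Submodule.Quotient.mk 0) (y, Submodule.Quotient.mk 0)
        (by rw [phi_mk, phi_mk, hxy])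
      exact congrArg Prod.fst this
    refine ⟨hf, fun g => ?_⟩
    obtain ⟨s, hs⟩ := ((LinearMap.range f).mkQ.restrictScalars k).exists_rightInverse_of_surjective
      (LinearMap.range_eq_top.2 (Submodule.mkQ_surjective _))
    have hs' : ∀ m, (LinearMap.range f).mkQ (s m) = m := fun m => LinearMap.congr_fun hs m
    obtain ⟨r, hr⟩ := exists_factor (k := k) hf
    let ψ : Z.T →ₗ[k] Y0.T := s ∘ₗ g.restrictScalars k
    have e : ∀ a z, f (r (del Z Y0 ψ a z)) = del Z Y0 ψ a z := fun a z => hr _ (by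
      rw [← Submodule.Quotient.mk_eq_zero, ← Submodule.mkQ_apply, del_apply, map_sub,
        (LinearMap.range f).mkQ.map_smul]
      change (LinearMap.range f).mkQ (s (g (a • z))) - a • (LinearMap.range f).mkQ (s (g z)) = 0
      rw [hs', hs', g.map_smul, sub_self])
    have h0 := @h (0, Submodule.Quotient.mk ((del Z Y0 ψ).compr₂ r)) 0 (by
      rw [phi_mk, map_zero, map_zero]
      exact Prod.ext rfl ((Submodule.Quotient.mk_eq_zero _).2
        ⟨ψ, LinearMap.ext fun a => LinearMap.ext fun z => (e a z).symm⟩))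
    obtain ⟨χ, hχ⟩ := (Submodule.Quotient.mk_eq_zero _).1 (congrArg Prod.snd h0)
    refine ⟨ofDel (ψ - f.restrictScalars k ∘ₗ χ) fun a z => ?_, LinearMap.ext fun z => ?_⟩
    · have e1 : χ (a • z) - a • χ z = r (del Z Y0 ψ a z) :=
        LinearMap.congr_fun (LinearMap.congr_fun hχ a) z
      have e2 := congrArg f e1
      rw [e, del_apply, map_sub, f.map_smul] at e2
      change ψ (a • z) - f (χ (a • z)) = a • (ψ z - f (χ z))
      rw [smul_sub, sub_eq_sub_iff_sub_eq_sub, e2]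
    · change (LinearMap.range f).mkQ (s (g z) - f (χ z)) = g z
      rw [map_sub, hs', Submodule.mkQ_apply,
        (Submodule.Quotient.mk_eq_zero _).2 (LinearMap.mem_range_self f _), sub_zero]

end Pool.Agent.Lib.MP_146384_al
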