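import Pool.Agent.Lib.MP_146384_al.R.Defs

set_option autoImplicit false

namespace Pool.Agent.Lib.MP_146384_al

open Module Function CategoryTheory

theorem pd_step {R A B C : Type} [Ring R] [AddCommGroup A] [Module R A] [AddCommGroup B]
    [Module R B] [AddCommGroup C] [Module R C] (f : A →ₗ[R] B) (g : B →ₗ[R] C)
    (hf : Injective f) (hg : Surjective g) (hex : Function.Exact f g) [Module.Projective R B]
    (n : ℕ) (h : HasProjectiveDimensionLT (ModuleCat.of R C) (n + 2)) :
    HasProjectiveDimensionLT (ModuleCat.of R A) (n + 1) := by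
  have hS := ModuleCat.shortComplex_shortExact
    (ModuleCat.shortComplexOfCompEqZero f g hex.linearMap_comp_eq_zero) hex hf hg
  exact (hS.hasProjectiveDimensionLT_X₃_iff n
    (ModuleCat.projective_of_categoryTheory_projective (ModuleCat.of R B))).1 h

variable {k Λ : Type} [Field k] [Ring Λ] [Algebra k Λ]

/-- `Hom(G, M)` as a right module over the endomorphism ring of `G`. -/
def HomR (G M : FM k Λ) : Type := G.T →ₗ[Λ] M.T

instance (G M : FM k Λ) : AddCommGroup (HomR G M) :=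
  inferInstanceAs (AddCommGroup (G.T →ₗ[Λ] M.T))

/-- The underlying map. -/
def HomR.v {G M : FM k Λ} (ψ : HomR G M) : G.T →ₗ[Λ] M.T := ψ

/-- A map as an element of `HomR`. -/
def HomR.mk {G M : FM k Λ} (ψ : G.T →ₗ[Λ] M.T) : HomR G M := ψ

instance (G M : FM k Λ) : Module (Module.End Λ G.T)ᵐᵒᵖ (HomR G M) where
  smul γ ψ := HomR.mk (ψ.v ∘ₗ γ.unop)
  one_smul _ := rfl
  mul_smul _ _ _ := rfl
  smul_zero _ := LinearMap.zero_comp _
  smul_add _ _ _ := LinearMap.add_comp _ _ _
  add_smul _ _ _ := LinearMap.comp_add _ _ _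
  zero_smul _ := LinearMap.comp_zero _

/-- Post-composition. -/
def postR (G : FM k Λ) {M N : FM k Λ} (f : M.T →ₗ[Λ] N.T) :
    HomR G M →ₗ[(Module.End Λ G.T)ᵐᵒᵖ] HomR G N where
  toFun ψ := HomR.mk (f ∘ₗ ψ.v)
  map_add' _ _ := LinearMap.comp_add _ _ _
  map_smul' _ _ := rfl

/-- Powers. -/
abbrev FM.pow (G : FM k Λ) (n : ℕ) : FM k Λ := FM.pi (fun _ : Fin n => G)

/-- `Hom(G, G^n)` is free. -/
def homRPow (G : FM k Λ) (n : ℕ) :
    HomR G (G.pow n) ≃ₗ[(Module.End Λ G.T)ᵐᵒᵖ] (Fin n → (Module.End Λ G.T)ᵐᵒᵖ) where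
  toFun ψ j := MulOpposite.op (LinearMap.proj j ∘ₗ ψ.v)
  invFun x := HomR.mk (LinearMap.pi fun j => (x j).unop)
  map_add' _ _ := rfl
  map_smul' _ _ := rfl
  left_inv _ := rfl
  right_inv _ := rfl

instance (G : FM k Λ) (n : ℕ) : Module.Projective (Module.End Λ G.T)ᵐᵒᵖ (HomR G (G.pow n)) :=
  Module.Projective.of_equiv (homRPow G n).symm

instance (G : FM k Λ) (n : ℕ) : Module.Finite (Module.End Λ G.T)ᵐᵒᵖ (HomR G (G.pow n)) :=
  Module.Finite.equiv (homRPow G n).symm

theorem postR_injective (G : FM k Λ) {M N : FM k Λ} (f : M.T →ₗ[Λ] N.T) (hf : Injective f) :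
    Injective (postR G f) := fun _ _ h =>
  LinearMap.ext fun x => hf (LinearMap.congr_fun (congrArg HomR.v h) x)

theorem postR_exact (G : FM k Λ) {M N P : FM k Λ} (f : M.T →ₗ[Λ] N.T) (g : N.T →ₗ[Λ] P.T)
    (hf : Injective f) (hex : Function.Exact f g) : Function.Exact (postR G f) (postR G g) := by
  intro ψ
  constructor
  · intro h
    have h1 : ∀ x, ψ.v x ∈ LinearMap.range f := fun x =>
      (hex _).1 (LinearMap.congr_fun (congrArg HomR.v h) x)
    refine ⟨HomR.mk ((LinearEquiv.ofInjective f hf).symm.toLinearMap ∘ₗ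
      LinearMap.codRestrict _ ψ.v h1), LinearMap.ext fun x => ?_⟩
    exact congrArg Subtype.val ((LinearEquiv.ofInjective f hf).apply_symm_apply ⟨ψ.v x, h1 x⟩)
  · rintro ⟨χ, rfl⟩
    exact LinearMap.ext fun x => hex.apply_apply_eq_zero _

theorem exists_approx (G M : FM k Λ) :
    ∃ (n : ℕ) (π : (G.pow n).T →ₗ[Λ] M.T), Surjective (postR G (M := G.pow n) π) := by
  classical
  let b := finBasis k (G.T →ₗ[Λ] M.T)
  refine ⟨_, ∑ j, b j ∘ₗ LinearMap.proj j, fun ψ => ⟨HomR.mk (LinearMap.pi fun j =>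
    b.repr ψ.v j • LinearMap.id), LinearMap.ext fun x => ?_⟩⟩
  have h := LinearMap.congr_fun (b.sum_repr ψ.v) x
  change (∑ j, b j ∘ₗ LinearMap.proj j : (G.pow _).T →ₗ[Λ] M.T)
    (fun j => b.repr ψ.v j • x) = ψ.v x
  rw [← h, LinearMap.sum_apply, LinearMap.sum_apply]
  refine Finset.sum_congr rfl fun j _ => ?_
  simp

section gen

variable (G : FM k Λ) {n : ℕ} (q : (Fin n → G.T) →ₗ[Λ] Λ) (g : Fin n → G.T) (hq : q g = 1)

/-- The maps `G → Y` attached to an element of `Y`. -/
def genMap {Y : FM k Λ} (y : Y.T) (j : Fin n) : HomR G Y :=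
  HomR.mk (LinearMap.toSpanSingleton Λ Y.T y ∘ₗ q ∘ₗ LinearMap.single Λ (fun _ => G.T) j)

include hq in
theorem genMap_sum {Y : FM k Λ} (y : Y.T) : ∑ j, (genMap G q y j).v (g j) = y := by
  have : ∑ j, (genMap G q y j).v (g j) = (∑ j, q (Pi.single j (g j))) • y := by
    rw [Finset.sum_smul]; rfl
  rw [this, ← map_sum, Finset.univ_sum_single, hq, one_smul]

include hq in
theorem surj_of_postR {M N : FM k Λ} (π : M.T →ₗ[Λ] N.T) (h : Surjective (postR G π)) :
    Surjective π := by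
  intro y
  choose χ hχ using fun j => h (genMap G q y j)
  refine ⟨∑ j, (χ j).v (g j), ?_⟩
  rw [map_sum, ← genMap_sum G q g hq y]
  exact Finset.sum_congr rfl fun j _ => LinearMap.congr_fun (congrArg HomR.v (hχ j)) (g j)

include hq in
theorem split_of_postR {M N : FM k Λ} (π : M.T →ₗ[Λ] N.T)
    (s : HomR G N →ₗ[(Module.End Λ G.T)ᵐᵒᵖ] HomR G M) (hs : postR G π ∘ₗ s = LinearMap.id) :
    ∃ σ : N.T →ₗ[Λ] M.T, π ∘ₗ σ = LinearMap.id := by
  refine ⟨{ toFun := fun y => ∑ j, (s (genMap G q y j)).v (g j)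
            map_add' := fun y z => ?_
            map_smul' := fun a y => ?_ }, LinearMap.ext fun y => ?_⟩
  · rw [← Finset.sum_add_distrib]
    refine Finset.sum_congr rfl fun j _ => ?_
    have : genMap G q (y + z) j = genMap G q y j + genMap G q z j :=
      LinearMap.ext fun x => smul_add _ _ _
    rw [this, map_add]; rfl
  · let γ : Fin n → Fin n → Module.End Λ G.T := fun l j =>
      LinearMap.toSpanSingleton Λ G.T (a • g l) ∘ₗ q ∘ₗ LinearMap.single Λ (fun _ => G.T) j
    have h1 : ∀ j, genMap G q (a • y) j = ∑ l, MulOpposite.op (γ l j) • genMap G q y l := by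
      intro j
      refine LinearMap.ext fun x => ?_
      have e1 : (∑ l, MulOpposite.op (γ l j) • genMap G q y l).v x =
          ∑ l, (genMap G q y l).v (γ l j x) :=
        LinearMap.sum_apply Finset.univ (fun l => (genMap G q y l).v ∘ₗ γ l j) x
      refine Eq.trans ?_ e1.symm
      have e2 : ∀ l, γ l j x = (q (Pi.single j x) * a) • g l := fun l => (mul_smul _ _ _).symm
      simp only [e2, map_smul]
      rw [← Finset.smul_sum, genMap_sum G q g hq y, mul_smul]
      rfl
    have h2 : ∀ j, (s (genMap G q (a • y) j)).v (g j) =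
        ∑ l, (s (genMap G q y l)).v (γ l j (g j)) := by
      intro j
      rw [h1, map_sum]
      simp only [map_smul]
      exact LinearMap.sum_apply Finset.univ (fun l => (s (genMap G q y l)).v ∘ₗ γ l j) (g j)
    simp only [h2, RingHom.id_apply]
    rw [Finset.sum_comm, Finset.smul_sum]
    refine Finset.sum_congr rfl fun l _ => ?_
    rw [← map_sum, ← map_smul]
    congr 1
    have e2 : ∀ j, γ l j (g j) = q (Pi.single j (g j)) • a • g l := fun j => rfl
    simp only [e2]
    rw [← Finset.sum_smul, ← map_sum, Finset.univ_sum_single, hq, one_smul]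
  · change π (∑ j, (s (genMap G q y j)).v (g j)) = y
    rw [map_sum, ← genMap_sum G q g hq y]
    refine Finset.sum_congr rfl fun j _ => ?_
    rw [genMap_sum G q g hq y]
    exact LinearMap.congr_fun (congrArg HomR.v (LinearMap.congr_fun hs (genMap G q y j))) (g j)

end gen

/-- Auslander's lemma: representation dimension at most three gives two-step resolutions. -/
theorem res_of_gldim (G : FM k Λ)
    (hgen : ∃ (n : ℕ) (q : (Fin n → G.T) →ₗ[Λ] Λ), Surjective q)
    (hcog : ∀ M : FM k Λ, ∃ (n : ℕ) (i : M.T →ₗ[Λ] (Fin n → G.T)), Injective i)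
    (hgl : ∀ N : ModuleCat.{0} (Module.End Λ G.T)ᵐᵒᵖ, Module.Finite (Module.End Λ G.T)ᵐᵒᵖ N →
      HasProjectiveDimensionLE N 3) (S : FM k Λ) :
    ∃ (Y1 Y0 : FM k Λ) (f : Y1.T →ₗ[Λ] Y0.T),
      InAdd G Y1 ∧ InAdd G Y0 ∧ Good G f ∧ Nonempty ((cok f).T ≃ₗ[Λ] S.T) := by
  obtain ⟨n, q, hq⟩ := hgen
  obtain ⟨g, hg⟩ := hq 1
  obtain ⟨a, i1, hi1⟩ := hcog S
  obtain ⟨b, i2, hi2⟩ := hcog ((G.pow a).quot (LinearMap.range i1))
  let β := postR G (M := G.pow a) (N := G.pow b) (i2 ∘ₗ (LinearMap.range i1).mkQ)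
  have hex : Function.Exact (postR G (N := G.pow a) i1) β := by
    refine postR_exact G (N := G.pow a) (P := G.pow b) i1 _ hi1 fun x => ?_
    constructor
    · intro h
      exact (Submodule.Quotient.mk_eq_zero _).1 (hi2 (h.trans (map_zero i2).symm))
    · intro h
      have : (LinearMap.range i1).mkQ x = 0 := (Submodule.Quotient.mk_eq_zero _).2 h
      rw [LinearMap.comp_apply, this, map_zero]
  have h3 : HasProjectiveDimensionLT
      (ModuleCat.of _ (HomR G (G.pow b) ⧸ LinearMap.range β)) 4 := hgl _ inferInstance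
  have h2 := pd_step (LinearMap.range β).subtype (LinearMap.range β).mkQ
    Subtype.val_injective (Submodule.mkQ_surjective _) (LinearMap.exact_subtype_mkQ _) 2 h3
  have h1 := pd_step (postR G (N := G.pow a) i1) β.rangeRestrict
    (postR_injective G (N := G.pow a) i1 hi1) β.surjective_rangeRestrict
    (fun ψ => (Subtype.ext_iff).trans (hex ψ)) 1 h2
  obtain ⟨c, π, hπ⟩ := exists_approx G S
  have hπs := surj_of_postR G q g hg π hπ
  let Y1 := (G.pow c).sub (LinearMap.ker π)
  have h0 := pd_step (postR G (M := Y1) (N := G.pow c) (LinearMap.ker π).subtype) (postR G π)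
    (postR_injective G (M := Y1) (N := G.pow c) _ Subtype.val_injective) hπ
    (postR_exact G (M := Y1) (N := G.pow c) _ π Subtype.val_injective
      (LinearMap.exact_subtype_ker_map π)) 0 h1
  have hP : Module.Projective (Module.End Λ G.T)ᵐᵒᵖ (HomR G Y1) :=
    (IsProjective.iff_projective _).2 (projective_iff_hasProjectiveDimensionLT_one.2 h0)
  obtain ⟨e, p, hp⟩ := exists_approx G Y1
  obtain ⟨s, hs⟩ := Module.projective_lifting_property (postR G p) LinearMap.id hp
  obtain ⟨σ, hσ⟩ := split_of_postR G q g hg p s hs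
  let E : ((G.pow c).T ⧸ LinearMap.range (LinearMap.ker π).subtype) ≃ₗ[Λ] S.T :=
    (Submodule.quotEquivOfEq _ _ (Submodule.range_subtype _)).trans (π.quotKerEquivOfSurjective hπs)
  have hE : ∀ x, E (Submodule.Quotient.mk x) = π x := fun x => rfl
  refine ⟨Y1, G.pow c, (LinearMap.ker π).subtype, ⟨e, σ, p, hσ⟩,
    ⟨c, LinearMap.id, LinearMap.id, rfl⟩, ⟨Subtype.val_injective, fun u => ?_⟩, ⟨E⟩⟩
  obtain ⟨χ, hχ⟩ := hπ (HomR.mk (E.toLinearMap ∘ₗ u))
  refine ⟨χ.v, LinearMap.ext fun x => E.injective ?_⟩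
  exact LinearMap.congr_fun (congrArg HomR.v hχ) x

end Pool.Agent.Lib.MP_146384_al
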